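import Pool.Agent.NWT.Final
import Pool.Agent.H34.Dec.Cover

/-!
From the solution of the linear system to weights on triangles.
-/

open Finset
open scoped Classical

namespace Pool.NWT

variable {V : Type*} [Fintype V]

/-- the system has a nonnegative solution -/
theorem solution {q : V → V → ℝ} (hq : WG q) [Nonempty V]
    (hu : ∀ a, uu q a ≤ nn V / 5)
    (hex : ∑ a, (nn V / 5 - uu q a) ≤ nn V ^ 2 / 50) :
    ∃ z : V → V → ℝ, (∀ a b, z a b = z b a) ∧ (∀ a b, 0 ≤ z a b) ∧
      ∀ a b, q a b ≠ 0 → ∑ c, q a c * q b c * (z a b + z a c + z b c) = 1 := by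
  have hN : 0 < nn V := by
    unfold nn; exact_mod_cast Fintype.card_pos
  obtain ⟨z, z1, z2, _, z4, z5⟩ := obstacle hq (η := nn V / 5) (by positivity) (by
    intro a b _
    rw [tau_eq]
    have h1 := tau_nb q a b
    have h2 := nb_le hq a b
    have h3 := dg_eq q a
    have h4 := dg_eq q b
    have h5 := hu a
    have h6 := hu b
    linarith)
  have e10 : 2 / (nn V / 5) = 10 / nn V := by field_simp; norm_num
  rw [e10] at z5
  have hst := star_le hq hu hex z1 z2 z4 z5
  refine ⟨z, z1, z2, fun a b h0 => ?_⟩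
  have h1 := z4 a b h0
  have hv : ∀ c, vv q z c = 1 / 2 - ZZ q z c := by
    intro c; unfold vv; rw [max_eq_left]; linarith [hst c]
  rw [hv, hv] at h1
  unfold SS ZZ tau at h1
  have h2 : ∑ c, q a c * q b c * (z a b + z a c + z b c)
      = (∑ c, q a c * q b c) * z a b
        - ∑ c, (q a c * (1 - q b c) * z a c + q b c * (1 - q a c) * z b c)
        + ∑ c, q a c * z a c + ∑ c, q b c * z b c := by
    rw [Finset.sum_mul, ← Finset.sum_sub_distrib, ← Finset.sum_add_distrib,
      ← Finset.sum_add_distrib]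
    refine Finset.sum_congr rfl fun c _ => ?_
    ring
  rw [h2, h1]; ring

/-- the weight of an ordered triangle -/
noncomputable def TT (q z : V → V → ℝ) (a b c : V) : ℝ :=
  q a b * q a c * q b c * (z a b + z a c + z b c)

/-- weights on the sets of three vertices -/
noncomputable def w1 (q z : V → V → ℝ) (K : Finset V) : ℝ :=
  (1 / 6) * ∑ x, ∑ y, ∑ t, if ({x, y, t} : Finset V) = K then TT q z x y t else 0

omit [Fintype V] in
lemma TT_nonneg {q z : V → V → ℝ} (hq : WG q) (hz : ∀ a b, 0 ≤ z a b) (x y t : V) :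
    0 ≤ TT q z x y t := by
  unfold TT
  have := hq.nonneg x y; have := hq.nonneg x t; have := hq.nonneg y t
  have := hz x y; have := hz x t; have := hz y t
  positivity

lemma w1_nonneg {q z : V → V → ℝ} (hq : WG q) (hz : ∀ a b, 0 ≤ z a b) (K : Finset V) :
    0 ≤ w1 q z K := by
  unfold w1
  refine mul_nonneg (by norm_num) ?_
  refine Finset.sum_nonneg fun x _ => Finset.sum_nonneg fun y _ => Finset.sum_nonneg fun t _ => ?_
  split_ifs
  · exact TT_nonneg hq hz x y t
  · exact le_rfl

lemma w1_ne {q z : V → V → ℝ} {K : Finset V} (h : w1 q z K ≠ 0) :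
    ∃ x y t, ({x, y, t} : Finset V) = K ∧ q x y ≠ 0 ∧ q x t ≠ 0 ∧ q y t ≠ 0 := by
  unfold w1 at h
  have h1 : ∑ x, ∑ y, ∑ t, (if ({x, y, t} : Finset V) = K then TT q z x y t else 0) ≠ 0 := by
    intro h0
    exact h (by rw [h0]; ring)
  obtain ⟨x, _, hx⟩ := Finset.exists_ne_zero_of_sum_ne_zero h1
  obtain ⟨y, _, hy⟩ := Finset.exists_ne_zero_of_sum_ne_zero hx
  obtain ⟨t, _, ht⟩ := Finset.exists_ne_zero_of_sum_ne_zero hy
  by_cases hK : ({x, y, t} : Finset V) = K
  · rw [if_pos hK] at ht
    refine ⟨x, y, t, hK, ?_, ?_, ?_⟩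
    · intro h0; exact ht (by unfold TT; rw [h0]; ring)
    · intro h0; exact ht (by unfold TT; rw [h0]; ring)
    · intro h0; exact ht (by unfold TT; rw [h0]; ring)
  · rw [if_neg hK] at ht
    exact absurd rfl ht

omit [Fintype V] in
lemma TT_point {q z : V → V → ℝ} (hq : WG q) {a b : V} (hab : a ≠ b) (x y t : V) :
    (if a ∈ ({x, y, t} : Finset V) ∧ b ∈ ({x, y, t} : Finset V) then TT q z x y t else 0)
      = (if a = x then if b = y then TT q z x y t else 0 else 0)
        + (if a = y then if b = x then TT q z x y t else 0 else 0)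
        + (if a = x then if b = t then TT q z x y t else 0 else 0)
        + (if a = t then if b = x then TT q z x y t else 0 else 0)
        + (if a = y then if b = t then TT q z x y t else 0 else 0)
        + (if a = t then if b = y then TT q z x y t else 0 else 0) := by
  by_cases h0 : TT q z x y t = 0
  · simp [h0]
  · have hxy : x ≠ y := by
      rintro rfl; exact h0 (by unfold TT; rw [hq.diag]; ring)
    have hxt : x ≠ t := by
      rintro rfl; exact h0 (by unfold TT; rw [hq.diag]; ring)
    have hyt : y ≠ t := by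
      rintro rfl; exact h0 (by unfold TT; rw [hq.diag]; ring)
    simp only [Finset.mem_insert, Finset.mem_singleton]
    by_cases a1 : a = x
    · subst a1
      by_cases b1 : b = y
      · subst b1; simp [hxy, hxt, hyt]
      · by_cases b2 : b = t
        · subst b2; simp [hxy, hxt, hyt, Ne.symm hyt]
        · simp [b1, b2, Ne.symm hab, hxy, hxt]
    · by_cases a2 : a = y
      · subst a2
        by_cases b1 : b = x
        · subst b1; simp [hxt, hyt, Ne.symm hxy]
        · by_cases b2 : b = t
          · subst b2; simp [hyt, Ne.symm hxt, Ne.symm hxy, Ne.symm hyt]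
          · simp [b1, b2, Ne.symm hab, hyt, Ne.symm hxy]
      · by_cases a3 : a = t
        · subst a3
          by_cases b1 : b = x
          · subst b1; simp [hxy, Ne.symm hxt, Ne.symm hyt]
          · by_cases b2 : b = y
            · subst b2; simp [Ne.symm hxy, Ne.symm hxt, Ne.symm hyt]
            · simp [b1, b2, Ne.symm hab, Ne.symm hxt, Ne.symm hyt]
        · simp [a1, a2, a3]

omit [Fintype V] in
lemma TT_swap12 {q z : V → V → ℝ} (hq : WG q) (hz : ∀ a b, z a b = z b a) (x y t : V) :
    TT q z x y t = TT q z y x t := by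
  unfold TT; rw [hq.symm x y, hz x y]; ring

omit [Fintype V] in
lemma TT_swap23 {q z : V → V → ℝ} (hq : WG q) (hz : ∀ a b, z a b = z b a) (x y t : V) :
    TT q z x y t = TT q z x t y := by
  unfold TT; rw [hq.symm y t, hz y t]; ring

lemma cov_w1 {q z : V → V → ℝ} (hq : WG q) (hz : ∀ a b, z a b = z b a) {a b : V} (hab : a ≠ b) :
    Pool.H34.Dec.cov (w1 q z) a b = ∑ c, TT q z a b c := by
  have h1 : Pool.H34.Dec.cov (w1 q z) a b = (1 / 6) * ∑ x, ∑ y, ∑ t,
      (if a ∈ ({x, y, t} : Finset V) ∧ b ∈ ({x, y, t} : Finset V) then TT q z x y t else 0) := by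
    unfold Pool.H34.Dec.cov w1
    have e1 : ∀ K : Finset V, (if a ∈ K ∧ b ∈ K then (1 / 6 : ℝ) * ∑ x, ∑ y, ∑ t,
        (if ({x, y, t} : Finset V) = K then TT q z x y t else 0) else 0)
        = (1 / 6 : ℝ) * ∑ x, ∑ y, ∑ t, (if ({x, y, t} : Finset V) = K then
          (if a ∈ ({x, y, t} : Finset V) ∧ b ∈ ({x, y, t} : Finset V) then TT q z x y t else 0)
          else 0) := by
      intro K
      by_cases hK : a ∈ K ∧ b ∈ K
      · rw [if_pos hK]
        congr 1
        refine Finset.sum_congr rfl fun x _ => Finset.sum_congr rfl fun y _ =>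
          Finset.sum_congr rfl fun t _ => ?_
        by_cases h : ({x, y, t} : Finset V) = K
        · rw [if_pos h, if_pos h, h, if_pos hK]
        · rw [if_neg h, if_neg h]
      · rw [if_neg hK]
        symm
        apply mul_eq_zero_of_right
        refine Finset.sum_eq_zero fun x _ => Finset.sum_eq_zero fun y _ =>
          Finset.sum_eq_zero fun t _ => ?_
        by_cases h : ({x, y, t} : Finset V) = K
        · rw [if_pos h, h, if_neg hK]
        · rw [if_neg h]
    rw [Finset.sum_congr rfl fun K _ => e1 K, ← Finset.mul_sum, Finset.sum_comm]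
    congr 1
    refine Finset.sum_congr rfl fun x _ => ?_
    rw [Finset.sum_comm]
    refine Finset.sum_congr rfl fun y _ => ?_
    rw [Finset.sum_comm]
    refine Finset.sum_congr rfl fun t _ => ?_
    rw [Finset.sum_ite_eq]
    simp only [Finset.mem_univ, if_true]
  rw [h1]
  simp only [TT_point hq hab, Finset.sum_add_distrib]
  have s1 : ∑ x, ∑ y, ∑ t, (if a = x then if b = y then TT q z x y t else 0 else 0)
      = ∑ c, TT q z a b c := by
    rw [Finset.sum_eq_single a (by intro x _ hx; simp [Ne.symm hx]) (by simp)]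
    rw [Finset.sum_eq_single b (by intro x _ hx; simp [Ne.symm hx]) (by simp)]
    simp
  have s2 : ∑ x, ∑ y, ∑ t, (if a = y then if b = x then TT q z x y t else 0 else 0)
      = ∑ c, TT q z a b c := by
    rw [Finset.sum_comm, ← s1]
    refine Finset.sum_congr rfl fun x _ => Finset.sum_congr rfl fun y _ =>
      Finset.sum_congr rfl fun t _ => ?_
    rw [TT_swap12 hq hz]
  have s3 : ∑ x, ∑ y, ∑ t, (if a = x then if b = t then TT q z x y t else 0 else 0)
      = ∑ c, TT q z a b c := by
    rw [sum_swap23, ← s1]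
    refine Finset.sum_congr rfl fun x _ => Finset.sum_congr rfl fun y _ =>
      Finset.sum_congr rfl fun t _ => ?_
    rw [TT_swap23 hq hz]
  have s4 : ∑ x, ∑ y, ∑ t, (if a = t then if b = x then TT q z x y t else 0 else 0)
      = ∑ c, TT q z a b c := by
    rw [sum_swap23, ← s2]
    refine Finset.sum_congr rfl fun x _ => Finset.sum_congr rfl fun y _ =>
      Finset.sum_congr rfl fun t _ => ?_
    rw [TT_swap23 hq hz]
  have s5 : ∑ x, ∑ y, ∑ t, (if a = y then if b = t then TT q z x y t else 0 else 0)
      = ∑ c, TT q z a b c := by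
    rw [sum_swap12, ← s3]
    refine Finset.sum_congr rfl fun x _ => Finset.sum_congr rfl fun y _ =>
      Finset.sum_congr rfl fun t _ => ?_
    rw [TT_swap12 hq hz]
  have s6 : ∑ x, ∑ y, ∑ t, (if a = t then if b = y then TT q z x y t else 0 else 0)
      = ∑ c, TT q z a b c := by
    rw [sum_swap23, ← s5]
    refine Finset.sum_congr rfl fun x _ => Finset.sum_congr rfl fun y _ =>
      Finset.sum_congr rfl fun t _ => ?_
    rw [TT_swap23 hq hz]
  rw [s1, s2, s3, s4, s5, s6]; ring

end Pool.NWT
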