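import Mathlib

/-!
Weighted graphs, the operators attached to them and the energy functional.
-/

open Finset

namespace Pool.NWT

variable {V : Type*} [Fintype V]

/-- a weighted graph: symmetric weights in `[0,1]` on the pairs of vertices, zero on the diagonal -/
structure WG (q : V → V → ℝ) : Prop where
  symm : ∀ a b, q a b = q b a
  nonneg : ∀ a b, 0 ≤ q a b
  le_one : ∀ a b, q a b ≤ 1
  diag : ∀ a, q a a = 0

/-- number of vertices, as a real number -/
noncomputable def nn (V : Type*) [Fintype V] : ℝ := (Fintype.card V : ℝ)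

/-- weighted degree -/
noncomputable def dg (q : V → V → ℝ) (a : V) : ℝ := ∑ b, q a b

/-- weighted non-degree (the vertex itself counts with weight one) -/
noncomputable def uu (q : V → V → ℝ) (a : V) : ℝ := ∑ b, (1 - q a b)

/-- star sums of an edge function -/
noncomputable def ZZ (q z : V → V → ℝ) (a : V) : ℝ := ∑ b, q a b * z a b

/-- weighted codegree -/
noncomputable def tau (q : V → V → ℝ) (a b : V) : ℝ := ∑ c, q a c * q b c

/-- the operator `S` -/
noncomputable def SS (q z : V → V → ℝ) (a b : V) : ℝ :=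
  tau q a b * z a b - ∑ c, (q a c * (1 - q b c) * z a c + q b c * (1 - q a c) * z b c)

/-- the vertex potentials -/
noncomputable def vv (q z : V → V → ℝ) (a : V) : ℝ := max (1 / 2 - ZZ q z a) 0

/-- the bilinear form of `S` -/
noncomputable def QF (q z w : V → V → ℝ) : ℝ := ∑ a, ∑ b, q a b * w a b * SS q z a b

/-- the energy -/
noncomputable def Psi (q z : V → V → ℝ) : ℝ :=
  (1 / 4) * QF q z z + (1 / 2) * ∑ a, (vv q z a) ^ 2

/-- weighted number of ordered triangles -/
noncomputable def tri (q : V → V → ℝ) : ℝ := ∑ a, ∑ b, ∑ c, q a b * q a c * q b c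

/-- the off-diagonal part of the bilinear form -/
noncomputable def C3 (q z w : V → V → ℝ) : ℝ :=
  ∑ a, ∑ b, ∑ c, q a b * q a c * (1 - q b c) * (w a b * z a c)

lemma sum_swap12 (f : V → V → V → ℝ) :
    ∑ a, ∑ b, ∑ c, f a b c = ∑ a, ∑ b, ∑ c, f b a c := by
  rw [Finset.sum_comm]

lemma sum_swap23 (f : V → V → V → ℝ) :
    ∑ a, ∑ b, ∑ c, f a b c = ∑ a, ∑ b, ∑ c, f a c b := by
  apply Finset.sum_congr rfl; intro a _
  rw [Finset.sum_comm]

lemma C3_symm {q : V → V → ℝ} (hq : WG q) (z w : V → V → ℝ) : C3 q z w = C3 q w z := by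
  unfold C3
  rw [sum_swap23]
  apply Finset.sum_congr rfl; intro a _
  apply Finset.sum_congr rfl; intro b _
  apply Finset.sum_congr rfl; intro c _
  rw [hq.symm c b]; ring

lemma QF_eq {q z w : V → V → ℝ} (hq : WG q) (_hz : ∀ a b, z a b = z b a)
    (hw : ∀ a b, w a b = w b a) :
    QF q z w = ∑ a, ∑ b, q a b * tau q a b * (z a b * w a b) - 2 * C3 q z w := by
  have h2 : ∑ a, ∑ b, ∑ c, q a b * q b c * (1 - q a c) * (w a b * z b c) = C3 q z w := by
    rw [sum_swap12]
    unfold C3
    apply Finset.sum_congr rfl; intro a _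
    apply Finset.sum_congr rfl; intro b _
    apply Finset.sum_congr rfl; intro c _
    rw [hq.symm b a, hw b a]
  have h1 : QF q z w = ∑ a, ∑ b, q a b * tau q a b * (z a b * w a b)
      - (∑ a, ∑ b, ∑ c, q a b * q a c * (1 - q b c) * (w a b * z a c)
        + ∑ a, ∑ b, ∑ c, q a b * q b c * (1 - q a c) * (w a b * z b c)) := by
    unfold QF SS
    rw [← Finset.sum_add_distrib, ← Finset.sum_sub_distrib]
    apply Finset.sum_congr rfl; intro a _
    rw [← Finset.sum_add_distrib, ← Finset.sum_sub_distrib]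
    apply Finset.sum_congr rfl; intro b _
    rw [← Finset.sum_add_distrib, mul_sub, Finset.mul_sum]
    congr 1
    · ring
    · apply Finset.sum_congr rfl; intro c _; ring
  rw [h1, h2]
  unfold C3
  ring

lemma QF_symm {q z w : V → V → ℝ} (hq : WG q) (hz : ∀ a b, z a b = z b a)
    (hw : ∀ a b, w a b = w b a) : QF q z w = QF q w z := by
  rw [QF_eq hq hz hw, QF_eq hq hw hz, C3_symm hq z w]
  congr 1
  apply Finset.sum_congr rfl; intro a _
  apply Finset.sum_congr rfl; intro b _
  ring

lemma SS_add (q z w : V → V → ℝ) (t : ℝ) (a b : V) :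
    SS q (fun x y => z x y + t * w x y) a b = SS q z a b + t * SS q w a b := by
  unfold SS
  have : ∑ c, (q a c * (1 - q b c) * (z a c + t * w a c) + q b c * (1 - q a c) * (z b c + t * w b c))
      = ∑ c, (q a c * (1 - q b c) * z a c + q b c * (1 - q a c) * z b c)
        + t * ∑ c, (q a c * (1 - q b c) * w a c + q b c * (1 - q a c) * w b c) := by
    rw [Finset.mul_sum, ← Finset.sum_add_distrib]
    apply Finset.sum_congr rfl; intro c _; ring
  rw [this]; ring

lemma ZZ_add (q z w : V → V → ℝ) (t : ℝ) (a : V) :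
    ZZ q (fun x y => z x y + t * w x y) a = ZZ q z a + t * ZZ q w a := by
  unfold ZZ
  rw [Finset.mul_sum, ← Finset.sum_add_distrib]
  apply Finset.sum_congr rfl; intro b _; ring

lemma QF_add {q z w : V → V → ℝ} (hq : WG q) (hz : ∀ a b, z a b = z b a)
    (hw : ∀ a b, w a b = w b a) (t : ℝ) :
    QF q (fun x y => z x y + t * w x y) (fun x y => z x y + t * w x y)
      = QF q z z + 2 * t * QF q z w + t ^ 2 * QF q w w := by
  have h : QF q (fun x y => z x y + t * w x y) (fun x y => z x y + t * w x y)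
      = QF q z z + t * QF q z w + t * QF q w z + t ^ 2 * QF q w w := by
    unfold QF
    simp only [Finset.mul_sum, ← Finset.sum_add_distrib]
    apply Finset.sum_congr rfl; intro a _
    apply Finset.sum_congr rfl; intro b _
    rw [SS_add]; ring
  rw [h, QF_symm hq hw hz]; ring

lemma max_sq_le (x s : ℝ) : (max (x - s) 0) ^ 2 ≤ (max x 0 - s) ^ 2 := by
  rcases le_total (x - s) 0 with h | h
  · rw [max_eq_right h]
    have := sq_nonneg (max x 0 - s)
    simpa using this
  · rw [max_eq_left h]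
    have h1 : x ≤ max x 0 := le_max_left _ _
    nlinarith

/-- one sided expansion of the energy -/
lemma Psi_add {q z w : V → V → ℝ} (hq : WG q) (hz : ∀ a b, z a b = z b a)
    (hw : ∀ a b, w a b = w b a) (t : ℝ) :
    Psi q (fun x y => z x y + t * w x y) ≤ Psi q z
      + t * ((1 / 2) * ∑ a, ∑ b, q a b * w a b * (SS q z a b - vv q z a - vv q z b))
      + t ^ 2 * ((1 / 4) * QF q w w + (1 / 2) * ∑ a, (ZZ q w a) ^ 2) := by
  have h1 : ∑ a, (vv q (fun x y => z x y + t * w x y) a) ^ 2
      ≤ ∑ a, ((vv q z a) ^ 2 - 2 * t * (vv q z a * ZZ q w a) + t ^ 2 * (ZZ q w a) ^ 2) := by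
    apply Finset.sum_le_sum; intro a _
    unfold vv
    rw [ZZ_add]
    have := max_sq_le (1 / 2 - ZZ q z a) (t * ZZ q w a)
    have e : 1 / 2 - (ZZ q z a + t * ZZ q w a) = 1 / 2 - ZZ q z a - t * ZZ q w a := by ring
    rw [e]
    refine this.trans (le_of_eq ?_)
    ring
  have h2 : ∑ a, ∑ b, q a b * w a b * (SS q z a b - vv q z a - vv q z b)
      = QF q z w - 2 * ∑ a, vv q z a * ZZ q w a := by
    have e1 : ∑ a, ∑ b, q a b * w a b * vv q z a = ∑ a, vv q z a * ZZ q w a := by
      apply Finset.sum_congr rfl; intro a _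
      unfold ZZ
      rw [Finset.mul_sum]
      apply Finset.sum_congr rfl; intro b _; ring
    have e2 : ∑ a, ∑ b, q a b * w a b * vv q z b = ∑ a, vv q z a * ZZ q w a := by
      rw [Finset.sum_comm, ← e1]
      apply Finset.sum_congr rfl; intro a _
      apply Finset.sum_congr rfl; intro b _
      rw [hq.symm b a, hw b a]
    have e3 : ∑ a, ∑ b, q a b * w a b * (SS q z a b - vv q z a - vv q z b)
        = QF q z w - ∑ a, ∑ b, q a b * w a b * vv q z a - ∑ a, ∑ b, q a b * w a b * vv q z b := by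
      unfold QF
      simp only [← Finset.sum_sub_distrib]
      apply Finset.sum_congr rfl; intro a _
      apply Finset.sum_congr rfl; intro b _
      ring
    rw [e3, e1, e2]; ring
  rw [h2]
  unfold Psi
  rw [QF_add hq hz hw]
  have h3 : ∑ a, ((vv q z a) ^ 2 - 2 * t * (vv q z a * ZZ q w a) + t ^ 2 * (ZZ q w a) ^ 2)
      = ∑ a, (vv q z a) ^ 2 - 2 * t * ∑ a, vv q z a * ZZ q w a + t ^ 2 * ∑ a, (ZZ q w a) ^ 2 := by
    rw [Finset.mul_sum, Finset.mul_sum, ← Finset.sum_sub_distrib, ← Finset.sum_add_distrib]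
  rw [h3] at h1
  nlinarith [h1]

lemma vv_nonneg (q z : V → V → ℝ) (a : V) : 0 ≤ vv q z a := le_max_right _ _

lemma vv_mul (q z : V → V → ℝ) (a : V) :
    vv q z a * ZZ q z a = vv q z a * (1 / 2 - vv q z a) := by
  unfold vv
  rcases le_total (1 / 2 - ZZ q z a) 0 with h | h
  · rw [max_eq_right h]; ring
  · rw [max_eq_left h]; ring

end Pool.NWT
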