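import Pool.Agent.NWT.Obst

/-!
The energy of the solution and the comparison with constant weightings.
-/

open Finset

namespace Pool.NWT

variable {V : Type*} [Fintype V]

/-- energy identity -/
lemma psi_eq {q z : V → V → ℝ} (hq : WG q) (hz : ∀ a b, z a b = z b a)
    (hs : ∀ a b, q a b ≠ 0 → SS q z a b = vv q z a + vv q z b) :
    4 * Psi q z = ∑ a, vv q z a := by
  have h1 : QF q z z = 2 * ∑ a, vv q z a * ZZ q z a := by
    have e0 : QF q z z = ∑ a, ∑ b, (q a b * z a b * vv q z a + q a b * z a b * vv q z b) := by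
      unfold QF
      refine Finset.sum_congr rfl fun a _ => Finset.sum_congr rfl fun b _ => ?_
      by_cases h0 : q a b = 0
      · rw [h0]; ring
      · rw [hs a b h0]; ring
    have e1 : ∑ a, ∑ b, q a b * z a b * vv q z a = ∑ a, vv q z a * ZZ q z a := by
      apply Finset.sum_congr rfl; intro a _
      unfold ZZ
      rw [Finset.mul_sum]
      apply Finset.sum_congr rfl; intro b _; ring
    have e2 : ∑ a, ∑ b, q a b * z a b * vv q z b = ∑ a, vv q z a * ZZ q z a := by
      rw [Finset.sum_comm, ← e1]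
      apply Finset.sum_congr rfl; intro a _
      apply Finset.sum_congr rfl; intro b _
      rw [hq.symm b a, hz b a]
    rw [e0]
    simp only [Finset.sum_add_distrib]
    rw [e1, e2]; ring
  have h2 : ∑ a, vv q z a * ZZ q z a = (1 / 2) * ∑ a, vv q z a - ∑ a, (vv q z a) ^ 2 := by
    rw [Finset.mul_sum, ← Finset.sum_sub_distrib]
    apply Finset.sum_congr rfl; intro a _
    rw [vv_mul]; ring
  unfold Psi
  rw [h1, h2]; ring

/-- the constant weighting -/
noncomputable def cst (q : V → V → ℝ) (s : ℝ) (a b : V) : ℝ := if q a b = 0 then 0 else s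

omit [Fintype V] in
lemma cst_mul (q : V → V → ℝ) (s : ℝ) (a b : V) : q a b * cst q s a b = s * q a b := by
  unfold cst
  split_ifs with h
  · rw [h]; ring
  · ring

omit [Fintype V] in
lemma cst_feas {q : V → V → ℝ} (hq : WG q) {s R : ℝ} (h0 : 0 ≤ s) (h1 : s ≤ R) :
    cst q s ∈ Feas q R := by
  refine ⟨fun a b => ?_, fun a b => ?_, fun a b => ?_, fun a b h => ?_⟩
  · unfold cst; rw [hq.symm a b]
  · unfold cst; split_ifs <;> linarith
  · unfold cst; split_ifs <;> linarith
  · unfold cst; rw [if_pos h]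

lemma tau_eq (q : V → V → ℝ) (a b : V) :
    ∑ c, (q a c * (1 - q b c) + q b c * (1 - q a c)) = dg q a + dg q b - 2 * tau q a b := by
  unfold dg tau
  rw [Finset.mul_sum, ← Finset.sum_add_distrib, ← Finset.sum_sub_distrib]
  apply Finset.sum_congr rfl; intro c _; ring

lemma SS_cst {q : V → V → ℝ} (s : ℝ) (a b : V) :
    q a b * SS q (cst q s) a b = s * q a b * (3 * tau q a b - dg q a - dg q b) := by
  by_cases h0 : q a b = 0
  · rw [h0]; ring
  · have h1 : SS q (cst q s) a b = tau q a b * s - s * (dg q a + dg q b - 2 * tau q a b) := by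
      unfold SS
      rw [← tau_eq, Finset.mul_sum]
      congr 1
      · unfold cst; rw [if_neg h0]
      · apply Finset.sum_congr rfl; intro c _
        have e1 := cst_mul q s a c
        have e2 := cst_mul q s b c
        linear_combination (1 - q b c) * e1 + (1 - q a c) * e2
    rw [h1]; ring

/-- the energy of a constant weighting -/
lemma psi_cst {q : V → V → ℝ} (hq : WG q) (s : ℝ) :
    Psi q (cst q s) ≤ nn V / 8 - (s / 2) * ∑ a, dg q a + (3 / 4) * s ^ 2 * tri q := by
  have h1 : QF q (cst q s) (cst q s) = s ^ 2 * (3 * tri q - 2 * ∑ a, (dg q a) ^ 2) := by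
    have e0 : QF q (cst q s) (cst q s)
        = s ^ 2 * ∑ a, ∑ b, (3 * (q a b * tau q a b) - q a b * dg q a - q a b * dg q b) := by
      unfold QF
      rw [Finset.mul_sum]
      apply Finset.sum_congr rfl; intro a _
      rw [Finset.mul_sum]
      apply Finset.sum_congr rfl; intro b _
      have e1 := SS_cst (q := q) s a b
      have e2 := cst_mul q s a b
      have : q a b * cst q s a b * SS q (cst q s) a b
          = cst q s a b * (q a b * SS q (cst q s) a b) := by ring
      rw [this, e1]
      have : cst q s a b * (s * q a b * (3 * tau q a b - dg q a - dg q b))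
          = (q a b * cst q s a b) * (s * (3 * tau q a b - dg q a - dg q b)) := by ring
      rw [this, e2]; ring
    have e1 : ∑ a, ∑ b, q a b * tau q a b = tri q := by
      unfold tri tau
      apply Finset.sum_congr rfl; intro a _
      apply Finset.sum_congr rfl; intro b _
      rw [Finset.mul_sum]
      apply Finset.sum_congr rfl; intro c _; ring
    have e2 : ∑ a, ∑ b, q a b * dg q a = ∑ a, (dg q a) ^ 2 := by
      apply Finset.sum_congr rfl; intro a _
      rw [← Finset.sum_mul]
      unfold dg; ring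
    have e3 : ∑ a, ∑ b, q a b * dg q b = ∑ a, (dg q a) ^ 2 := by
      rw [Finset.sum_comm, ← e2]
      apply Finset.sum_congr rfl; intro a _
      apply Finset.sum_congr rfl; intro b _
      rw [hq.symm b a]
    rw [e0]
    congr 1
    simp only [Finset.sum_sub_distrib]
    rw [e2, e3, ← e1]
    simp only [← Finset.mul_sum]
    ring
  have h2 : ∑ a, (vv q (cst q s) a) ^ 2 ≤ ∑ a, (1 / 4 - s * dg q a + s ^ 2 * (dg q a) ^ 2) := by
    apply Finset.sum_le_sum; intro a _
    have e1 : ZZ q (cst q s) a = s * dg q a := by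
      unfold ZZ dg
      rw [Finset.mul_sum]
      apply Finset.sum_congr rfl; intro b _
      exact cst_mul q s a b
    unfold vv
    rw [e1]
    rcases le_total (1 / 2 - s * dg q a) 0 with h | h
    · rw [max_eq_right h]
      nlinarith [sq_nonneg (1 / 2 - s * dg q a)]
    · rw [max_eq_left h]
      apply le_of_eq; ring
  have h3 : ∑ a, (1 / 4 - s * dg q a + s ^ 2 * (dg q a) ^ 2)
      = nn V / 4 - s * ∑ a, dg q a + s ^ 2 * ∑ a, (dg q a) ^ 2 := by
    rw [Finset.sum_add_distrib, Finset.sum_sub_distrib, ← Finset.mul_sum, ← Finset.mul_sum]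
    simp only [Finset.sum_const, Finset.card_univ, nsmul_eq_mul, nn]
    ring
  rw [h3] at h2
  unfold Psi
  rw [h1]
  linarith

/-- bound for the number of triangles -/
lemma tri_le {q : V → V → ℝ} (hq : WG q) :
    tri q ≤ nn V ^ 3 - 3 * nn V * ∑ a, uu q a + 3 * ∑ a, (uu q a) ^ 2 := by
  have h1 : tri q ≤ ∑ a, ∑ b, ∑ c, (1 - (1 - q a b) - (1 - q a c) - (1 - q b c)
      + (1 - q a b) * (1 - q a c) + (1 - q a b) * (1 - q b c) + (1 - q a c) * (1 - q b c)) := by
    unfold tri
    refine Finset.sum_le_sum fun a _ => Finset.sum_le_sum fun b _ => Finset.sum_le_sum fun c _ => ?_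
    have h : 0 ≤ (1 - q a b) * (1 - q a c) * (1 - q b c) :=
      mul_nonneg (mul_nonneg (by linarith [hq.le_one a b]) (by linarith [hq.le_one a c]))
        (by linarith [hq.le_one b c])
    nlinarith [h]
  refine h1.trans (le_of_eq ?_)
  simp only [Finset.sum_add_distrib, Finset.sum_sub_distrib]
  have c1 : ∑ _a : V, ∑ _b : V, ∑ _c : V, (1 : ℝ) = nn V ^ 3 := by
    simp only [Finset.sum_const, Finset.card_univ, nsmul_eq_mul, nn]; ring
  have c2 : ∑ a : V, ∑ b : V, ∑ _c : V, (1 - q a b) = nn V * ∑ a, uu q a := by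
    unfold uu
    simp only [Finset.sum_const, Finset.card_univ, nsmul_eq_mul, ← Finset.mul_sum, nn]
  have c3 : ∑ a : V, ∑ _b : V, ∑ c : V, (1 - q a c) = nn V * ∑ a, uu q a := by
    unfold uu
    simp only [Finset.sum_const, Finset.card_univ, nsmul_eq_mul, ← Finset.mul_sum, nn]
  have c4 : ∑ _a : V, ∑ b : V, ∑ c : V, (1 - q b c) = nn V * ∑ a, uu q a := by
    unfold uu
    simp only [Finset.sum_const, Finset.card_univ, nsmul_eq_mul, nn]
  have c5 : ∑ a : V, ∑ b : V, ∑ c : V, (1 - q a b) * (1 - q a c) = ∑ a, (uu q a) ^ 2 := by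
    apply Finset.sum_congr rfl; intro a _
    unfold uu
    rw [sq, Finset.sum_mul]
    apply Finset.sum_congr rfl; intro b _
    rw [Finset.mul_sum]
  have c6 : ∑ a : V, ∑ b : V, ∑ c : V, (1 - q a b) * (1 - q b c) = ∑ a, (uu q a) ^ 2 := by
    rw [sum_swap12, ← c5]
    apply Finset.sum_congr rfl; intro a _
    apply Finset.sum_congr rfl; intro b _
    apply Finset.sum_congr rfl; intro c _
    rw [hq.symm b a]
  have c7 : ∑ a : V, ∑ b : V, ∑ c : V, (1 - q a c) * (1 - q b c) = ∑ a, (uu q a) ^ 2 := by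
    rw [sum_swap23, ← c6]
    apply Finset.sum_congr rfl; intro a _
    apply Finset.sum_congr rfl; intro b _
    apply Finset.sum_congr rfl; intro c _
    rw [hq.symm c b]
  have c1' : ∑ a : V, ∑ b : V, ∑ c : V, (1 : ℝ) = nn V ^ 3 := c1
  simp only [Finset.sum_sub_distrib] at c2 c3 c4 c5 c6 c7 ⊢
  linarith

end Pool.NWT
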