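import Pool.Agent.NWT.Ineq

/-!
The star sums of the solution do not exceed one half.
-/

open Finset

namespace Pool.NWT

variable {V : Type*} [Fintype V]

/-- the final contradiction, in normalised form -/
lemma numer {e g h G : ℝ} (h0 : 0 ≤ g) (h1 : g ≤ 1 / 50) (h2 : h ≤ g / 5)
    (hG : h - 2 * e * g ≤ 8 / 5 * G) (he : 5 / 2 * G ≤ e)
    (hE : 1 / 10 + e ≤ 1 / 2 - 24 / 25 * (4 / 5 + g)
      + 3 / 4 * (24 / 25) ^ 2 * (13 / 25 + 9 / 5 * g + 3 * h)) : False := by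
  have k1 : e * (1 + 25 / 8 * g) ≥ 25 / 16 * h := by nlinarith
  have k2 : e ≤ 1 / 2 - 1 / 10 - 24 / 25 * (4 / 5 + g)
      + 3 / 4 * (24 / 25) ^ 2 * (13 / 25 + 9 / 5 * g + 3 * h) := by linarith
  have k3 : e * (1 + 25 / 8 * g) ≤ (1 / 2 - 1 / 10 - 24 / 25 * (4 / 5 + g)
      + 3 / 4 * (24 / 25) ^ 2 * (13 / 25 + 9 / 5 * g + 3 * h)) * (1 + 25 / 8 * g) :=
    mul_le_mul_of_nonneg_right k2 (by positivity)
  have k4 : (1 / 2 - 1 / 10 - 24 / 25 * (4 / 5 + g)
      + 3 / 4 * (24 / 25) ^ 2 * (13 / 25 + 9 / 5 * g + 3 * h)) * (1 + 25 / 8 * g)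
      - 25 / 16 * h ≤ (1 / 2 - 1 / 10 - 24 / 25 * (4 / 5 + g)
      + 3 / 4 * (24 / 25) ^ 2 * (13 / 25 + 9 / 5 * g + 3 * (g / 5))) * (1 + 25 / 8 * g)
      - 25 / 16 * (g / 5) := by
    nlinarith [mul_nonneg h0 (sub_nonneg.2 h2)]
  have k5 : (1 / 2 - 1 / 10 - 24 / 25 * (4 / 5 + g)
      + 3 / 4 * (24 / 25) ^ 2 * (13 / 25 + 9 / 5 * g + 3 * (g / 5))) * (1 + 25 / 8 * g)
      - 25 / 16 * (g / 5) < 0 := by
    nlinarith [mul_nonneg h0 (sub_nonneg.2 h1)]
  linarith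

lemma scalA {G e s E : ℝ}
    (hA : (4 / 5 + s) * (1 / 5 + 2 * s) * (1 / 2 + E) ≤ (4 / 5 + s) * (1 / 10 + e) - 2 * G) :
    2 * G + (4 / 5 + s) * ((1 / 5 + 2 * s) * E) ≤ (4 / 5 + s) * (e - s) := by
  nlinarith

lemma scalB {G e s : ℝ} (hs0 : 0 ≤ s) (hG : G ≤ 1 / 10)
    (hA : 2 * G ≤ (4 / 5 + s) * (e - s)) : 5 / 2 * G ≤ e := by
  by_contra hc
  push Not at hc
  have h5 : (4 / 5 + s) * (e - s) < (4 / 5 + s) * (5 / 2 * G - s) :=
    mul_lt_mul_of_pos_left (by linarith) (by positivity)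
  nlinarith [mul_nonneg hs0 (sub_nonneg.2 hG), mul_nonneg hs0 hs0]

lemma scalC {e s E : ℝ} (hs0 : 0 ≤ s) (hE0 : 0 ≤ E)
    (hA : (4 / 5 + s) * ((1 / 5 + 2 * s) * E) ≤ (4 / 5 + s) * e) : E ≤ 5 * e := by
  have h6 := le_of_mul_le_mul_left hA (by positivity : 0 < 4 / 5 + s)
  nlinarith [mul_nonneg hs0 hE0]

lemma scalD {N u M W G Y QV NV SN QG NG : ℝ} (hd0 : 0 ≤ N - u) (hd1 : 0 ≤ N - u - 2 * (N / 5))
    (hNV : 0 ≤ NV) (j1 : (N - u) * M ≤ 2 * Y + QV + SN)
    (i2 : (N - u - 2 * (N / 5)) * Y ≤ N / 5 * QV - QG + N / 5 * SN)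
    (i3 : SN ≤ M * u - NV) (i4 : QV + NV = W) (i7 : QG + NG = G) (i8 : NG ≤ N / 5 * NV) :
    (N - u) * (3 * N / 5 - 2 * u) * M ≤ (N - u) * W - 2 * G := by
  have j2 := mul_le_mul_of_nonneg_left j1 hd1
  have j3 := mul_le_mul_of_nonneg_left i3 hd0
  have j4 : 0 ≤ (N - u - N / 5) * NV := mul_nonneg (by linarith) hNV
  have j5 : QV = W - NV := by linarith
  have j6 : QG = G - NG := by linarith
  subst j5 j6
  have e1 : (N - u - 2 * (N / 5)) * ((N - u) * M)
      = (N - u) * (3 * N / 5 - 2 * u) * M + (N - u) * (M * u) := by ring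
  have e2 : (N - u - 2 * (N / 5)) * (2 * Y + (W - NV) + SN)
      = 2 * ((N - u - 2 * (N / 5)) * Y) + (N - u) * W - (N - u) * NV + (N - u) * SN
        - 2 * (N / 5 * (W - NV)) - 2 * (N / 5 * SN) := by ring
  rw [e1, e2] at j2
  have e3 : (N - u - N / 5) * NV = (N - u) * NV - N / 5 * NV := by ring
  have e4 : (N - u) * (M * u - NV) = (N - u) * (M * u) - (N - u) * NV := by ring
  rw [e3] at j4
  rw [e4] at j3
  linarith

lemma scalE {N u v Z W e E : ℝ} (hu0 : 0 ≤ u) (hv0 : 0 ≤ v)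
    (hW : W = N * (1 / 10 + e)) (hZ : 1 / 2 - v ≤ Z) (j1 : 0 ≤ N - u - 2 * (N / 5))
    (j3 : (N - u - 2 * (N / 5)) * Z ≤ (N - u) * v + W + (1 / 2 + E) * u)
    (j4 : E * u ≤ N * e) : (N / 5 - u) - 2 * N * e ≤ 8 / 5 * N * v := by
  have j2 := mul_le_mul_of_nonneg_left hZ j1
  have j5 : 0 ≤ u * v := mul_nonneg hu0 hv0
  subst hW
  nlinarith [j2, j3, j4, j5]

/-- the star sums are at most one half -/
theorem star_le {q z : V → V → ℝ} (hq : WG q) [Nonempty V]
    (hu : ∀ a, uu q a ≤ nn V / 5)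
    (hex : ∑ a, (nn V / 5 - uu q a) ≤ nn V ^ 2 / 50)
    (hz : ∀ a b, z a b = z b a) (hz0 : ∀ a b, 0 ≤ z a b)
    (hs : ∀ a b, q a b ≠ 0 → SS q z a b = vv q z a + vv q z b)
    (hmin : ∀ y ∈ Feas q (10 / nn V), Psi q z ≤ Psi q y) :
    ∀ a, ZZ q z a ≤ 1 / 2 := by
  classical
  have hN : 0 < nn V := by
    unfold nn; exact_mod_cast Fintype.card_pos
  set N := nn V with hNdef
  obtain ⟨a, ha⟩ := Finite.exists_max (ZZ q z)
  by_contra hcon
  push Not at hcon
  obtain ⟨a', ha'⟩ := hcon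
  have hM : 1 / 2 < ZZ q z a := lt_of_lt_of_le ha' (ha a')
  set M := ZZ q z a with hMdef
  have hva : vv q z a = 0 := by
    unfold vv; rw [max_eq_right]; linarith
  have hZ : ∀ c, ZZ q z c ≤ M - vv q z c := by
    intro c
    unfold vv
    rcases le_total (1 / 2 - ZZ q z c) 0 with h | h
    · rw [max_eq_right h]; linarith [ha c]
    · rw [max_eq_left h]; linarith
  have hZl : ∀ c, 1 / 2 - vv q z c ≤ ZZ q z c := by
    intro c
    unfold vv
    have := le_max_left (1 / 2 - ZZ q z c) 0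
    linarith
  set W := ∑ b, vv q z b with hW
  -- sums at a vertex
  have hSN : ∀ h, ∑ c, (1 - q h c) * ZZ q z c ≤ M * uu q h - ∑ c, (1 - q h c) * vv q z c := by
    intro h
    unfold uu
    rw [Finset.mul_sum, ← Finset.sum_sub_distrib]
    refine Finset.sum_le_sum fun c _ => ?_
    have := mul_le_mul_of_nonneg_left (hZ c) (by linarith [hq.le_one h c] : 0 ≤ 1 - q h c)
    linarith
  have hQN : ∀ h, ∑ b, q h b * vv q z b + ∑ b, (1 - q h b) * vv q z b = W := by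
    intro h
    rw [hW, ← Finset.sum_add_distrib]
    refine Finset.sum_congr rfl fun c _ => ?_
    ring
  have hNVn : ∀ h, 0 ≤ ∑ b, (1 - q h b) * vv q z b := fun h =>
    Finset.sum_nonneg fun c _ => mul_nonneg (by linarith [hq.le_one h c]) (vv_nonneg q z c)
  set G := ∑ b, (N / 5 - uu q b) * vv q z b with hG
  have hGn : 0 ≤ G := Finset.sum_nonneg fun b _ =>
    mul_nonneg (by linarith [hu b]) (vv_nonneg q z b)
  -- inequality (A)
  have hA : (N - uu q a) * (3 * N / 5 - 2 * uu q a) * M ≤ (N - uu q a) * W - 2 * G := by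
    have i1 := ident hq hz hs a
    have i2 := second hq hz hz0 hs hu a hva
    have i3 := hSN a
    have i4 := hQN a
    have i5 := JJ_nonneg hq hz0 a
    rw [hva, ← hMdef] at i1
    have i6 : ∑ b, q a b * (uu q b * vv q z b) = N / 5 * ∑ b, q a b * vv q z b
        - ∑ b, q a b * ((N / 5 - uu q b) * vv q z b) := by
      rw [Finset.mul_sum, ← Finset.sum_sub_distrib]
      refine Finset.sum_congr rfl fun b _ => ?_
      ring
    have i7 : ∑ b, q a b * ((N / 5 - uu q b) * vv q z b)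
        + ∑ b, (1 - q a b) * ((N / 5 - uu q b) * vv q z b) = G := by
      rw [hG, ← Finset.sum_add_distrib]
      refine Finset.sum_congr rfl fun c _ => ?_
      ring
    have i8 : ∑ b, (1 - q a b) * ((N / 5 - uu q b) * vv q z b)
        ≤ N / 5 * ∑ b, (1 - q a b) * vv q z b := by
      rw [Finset.mul_sum]
      refine Finset.sum_le_sum fun b _ => ?_
      have h1 : 0 ≤ (1 - q a b) * vv q z b :=
        mul_nonneg (by linarith [hq.le_one a b]) (vv_nonneg q z b)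
      have h2 := mul_nonneg (uu_nonneg hq b) h1
      nlinarith
    have i9 := dg_eq q a
    have i10 := hu a
    have i11 := hNVn a
    have i12 := uu_nonneg hq a
    rw [i6] at i2
    rw [i9] at i1 i2
    rw [← hNdef] at i1 i2
    exact scalD (by linarith) (by linarith) i11
      (by linarith : (N - uu q a) * M ≤ 2 * YY q z a + ∑ b, q a b * vv q z b
        + ∑ c, (1 - q a c) * ZZ q z c) i2 i3 i4 i7 i8
  -- normalised quantities
  set e : ℝ := W / N - 1 / 10 with he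
  have hWe : W = N * (1 / 10 + e) := by rw [he]; field_simp; ring
  set E : ℝ := M - 1 / 2 with hE
  have hME : M = 1 / 2 + E := by rw [hE]; ring
  have hE0 : 0 < E := by rw [hE]; linarith
  set γ : ℝ := G / N ^ 2 with hγ
  have hGγ : G = N ^ 2 * γ := by rw [hγ]; field_simp
  have hγ0 : 0 ≤ γ := by rw [hγ]; positivity
  have hγ1 : γ ≤ 1 / 10 := by
    have h1 : G ≤ N * (N / 10) := by
      have : G ≤ ∑ _b : V, N / 10 := by
        rw [hG]
        refine Finset.sum_le_sum fun b _ => ?_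
        have h1 := vv_le hq hz0 b
        have h2 := vv_nonneg q z b
        have h3 := uu_nonneg hq b
        have h4 := hu b
        nlinarith
      rw [Finset.sum_const, Finset.card_univ, nsmul_eq_mul] at this
      exact this
    rw [hγ, div_le_iff₀ (by positivity)]
    nlinarith
  have hA1 : 5 / 2 * γ ≤ e ∧ E ≤ 5 * e := by
    set s : ℝ := 1 / 5 - uu q a / N with hs'
    have hus : uu q a = N * (1 / 5 - s) := by rw [hs']; field_simp; ring
    have hs0 : 0 ≤ s := by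
      rw [hs', sub_nonneg, div_le_iff₀ hN]; linarith [hu a]
    have hA2 : (4 / 5 + s) * (1 / 5 + 2 * s) * M ≤ (4 / 5 + s) * (1 / 10 + e) - 2 * γ := by
      rw [hus, hWe, hGγ] at hA
      have h1 : N ^ 2 * ((4 / 5 + s) * (1 / 5 + 2 * s) * M)
          ≤ N ^ 2 * ((4 / 5 + s) * (1 / 10 + e) - 2 * γ) := by
        have g1 : (N - N * (1 / 5 - s)) * (3 * N / 5 - 2 * (N * (1 / 5 - s))) * M
          = N ^ 2 * ((4 / 5 + s) * (1 / 5 + 2 * s) * M) := by ring
        have g2 : (N - N * (1 / 5 - s)) * (N * (1 / 10 + e)) - 2 * (N ^ 2 * γ)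
          = N ^ 2 * ((4 / 5 + s) * (1 / 10 + e) - 2 * γ) := by ring
        rw [g1, g2] at hA
        exact hA
      exact le_of_mul_le_mul_left h1 (by positivity)
    rw [hME] at hA2
    have h3 : 0 ≤ (4 / 5 + s) * ((1 / 5 + 2 * s) * E) := by positivity
    have h4 := scalA hA2
    have h5 : 0 ≤ (4 / 5 + s) * s := by positivity
    exact ⟨scalB hs0 hγ1 (by linarith), scalC hs0 hE0.le (by linarith)⟩
  obtain ⟨hA3, hA4⟩ := hA1
  have he0 : 0 ≤ e := by nlinarith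
  -- lower bound for the potentials
  have hB : ∀ h, (N / 5 - uu q h) - 2 * N * e ≤ 8 / 5 * N * vv q z h := by
    intro h
    have i1 := ident hq hz hs h
    have i2 := YY_le hq hz0 h hu
    have i3 := hSN h
    have i4 := hQN h
    have i5 := JJ_nonneg hq hz0 h
    have i6 := hNVn h
    have i7 := hZl h
    have i8 := dg_eq q h
    have i9 := hu h
    have i10 := uu_nonneg hq h
    have i11 := vv_nonneg q z h
    rw [i8] at i1
    rw [← hNdef] at i1
    rw [hME] at i3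
    have j1 : 0 ≤ N - uu q h - 2 * (N / 5) := by linarith
    have j3 : (N - uu q h - 2 * (N / 5)) * ZZ q z h ≤ (N - uu q h) * vv q z h + W
        + (1 / 2 + E) * uu q h := by linarith
    have j4 : E * uu q h ≤ N * e := by
      have : E * uu q h ≤ (5 * e) * (N / 5) := mul_le_mul hA4 i9 i10 (by linarith)
      linarith
    exact scalE i10 i11 hWe i7 j1 j3 j4
  -- sum of the lower bounds
  set S1 := ∑ h, (N / 5 - uu q h) with hS1
  set S2 := ∑ h, (N / 5 - uu q h) ^ 2 with hS2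
  have hS1n : 0 ≤ S1 := Finset.sum_nonneg fun h _ => by linarith [hu h]
  have hsum : S2 - 2 * N * e * S1 ≤ 8 / 5 * N * G := by
    rw [hS2, hS1, hG, Finset.mul_sum, Finset.mul_sum, ← Finset.sum_sub_distrib]
    refine Finset.sum_le_sum fun h _ => ?_
    have := mul_le_mul_of_nonneg_left (hB h) (by linarith [hu h] : 0 ≤ N / 5 - uu q h)
    nlinarith
  have hS21 : S2 ≤ N / 5 * S1 := by
    rw [hS2, hS1, Finset.mul_sum]
    refine Finset.sum_le_sum fun h _ => ?_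
    have h1 := uu_nonneg hq h
    have h2 := hu h
    nlinarith [mul_nonneg h1 (sub_nonneg.2 h2)]
  -- the energy bound
  have hen : W ≤ N / 2 - 2 * (12 / (25 * N)) * ∑ a, dg q a
      + 3 * (12 / (25 * N)) ^ 2 * tri q := by
    have hf : cst q (12 / (25 * N)) ∈ Feas q (10 / N) := by
      refine cst_feas hq (by positivity) ?_
      rw [div_le_div_iff₀ (by positivity) hN]
      nlinarith
    have h1 := hmin _ hf
    have h2 := psi_cst hq (12 / (25 * N))
    have h3 : 4 * Psi q z = W := psi_eq hq hz hs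
    rw [← hNdef] at h2
    linarith
  have hsumu : ∑ a, uu q a = N ^ 2 / 5 - S1 := by
    rw [hS1, Finset.sum_sub_distrib, Finset.sum_const, Finset.card_univ, nsmul_eq_mul]
    have : (Fintype.card V : ℝ) = N := rfl
    rw [this]; ring
  have hsumd : ∑ a, dg q a = 4 * N ^ 2 / 5 + S1 := by
    have : ∑ a, dg q a = ∑ a : V, (N - uu q a) :=
      Finset.sum_congr rfl fun a _ => dg_eq q a
    rw [this, Finset.sum_sub_distrib, hsumu, Finset.sum_const, Finset.card_univ, nsmul_eq_mul]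
    have : (Fintype.card V : ℝ) = N := rfl
    rw [this]; ring
  have hsumu2 : ∑ a, (uu q a) ^ 2 = N ^ 3 / 25 - 2 * N / 5 * S1 + S2 := by
    have h1 : ∑ a, (uu q a) ^ 2
        = ∑ a : V, (N ^ 2 / 25 - 2 * N / 5 * (N / 5 - uu q a) + (N / 5 - uu q a) ^ 2) :=
      Finset.sum_congr rfl fun a _ => by ring
    rw [h1, Finset.sum_add_distrib, Finset.sum_sub_distrib, ← Finset.mul_sum, Finset.sum_const,
      Finset.card_univ, nsmul_eq_mul]
    have : (Fintype.card V : ℝ) = N := rfl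
    rw [this]; ring
  have htri := tri_le hq
  rw [← hNdef, hsumu, hsumu2] at htri
  rw [hsumd] at hen
  set g : ℝ := S1 / N ^ 2 with hg
  have hS1g : S1 = N ^ 2 * g := by rw [hg]; field_simp
  set h2 : ℝ := S2 / N ^ 3 with hh2
  have hS2h : S2 = N ^ 3 * h2 := by rw [hh2]; field_simp
  have f1 : 0 ≤ g := by rw [hg]; positivity
  have f2 : g ≤ 1 / 50 := by
    rw [hg, div_le_iff₀ (by positivity)]; linarith
  have f3 : h2 ≤ g / 5 := by
    rw [hS1g, hS2h] at hS21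
    have : N ^ 3 * h2 ≤ N ^ 3 * (g / 5) := by nlinarith
    exact le_of_mul_le_mul_left this (by positivity)
  have f4 : h2 - 2 * e * g ≤ 8 / 5 * γ := by
    rw [hS1g, hS2h, hGγ] at hsum
    have : N ^ 3 * (h2 - 2 * e * g) ≤ N ^ 3 * (8 / 5 * γ) := by nlinarith
    exact le_of_mul_le_mul_left this (by positivity)
  have f5 : 1 / 10 + e ≤ 1 / 2 - 24 / 25 * (4 / 5 + g)
      + 3 / 4 * (24 / 25) ^ 2 * (13 / 25 + 9 / 5 * g + 3 * h2) := by
    have k1 : 3 * (12 / (25 * N)) ^ 2 * tri q ≤ 3 * (12 / (25 * N)) ^ 2 *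
        (N ^ 3 - 3 * N * (N ^ 2 / 5 - S1) + 3 * (N ^ 3 / 25 - 2 * N / 5 * S1 + S2)) :=
      mul_le_mul_of_nonneg_left htri (by positivity)
    have k2 : W ≤ N / 2 - 2 * (12 / (25 * N)) * (4 * N ^ 2 / 5 + S1)
        + 3 * (12 / (25 * N)) ^ 2 *
        (N ^ 3 - 3 * N * (N ^ 2 / 5 - S1) + 3 * (N ^ 3 / 25 - 2 * N / 5 * S1 + S2)) := by
      linarith
    rw [hS1g, hS2h, hWe] at k2
    have k3 : N / 2 - 2 * (12 / (25 * N)) * (4 * N ^ 2 / 5 + N ^ 2 * g)
        + 3 * (12 / (25 * N)) ^ 2 *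
        (N ^ 3 - 3 * N * (N ^ 2 / 5 - N ^ 2 * g)
          + 3 * (N ^ 3 / 25 - 2 * N / 5 * (N ^ 2 * g) + N ^ 3 * h2))
        = N * (1 / 2 - 24 / 25 * (4 / 5 + g)
      + 3 / 4 * (24 / 25) ^ 2 * (13 / 25 + 9 / 5 * g + 3 * h2)) := by
      field_simp
      ring
    rw [k3] at k2
    exact le_of_mul_le_mul_left k2 hN
  exact numer f1 f2 f3 f4 hA3 f5

end Pool.NWT
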