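import Pool.Agent.NWT.Energy

/-!
Local identities and inequalities for the solution of the linear system.
-/

open Finset

namespace Pool.NWT

variable {V : Type*} [Fintype V]

/-- number of neighbours of `a` that miss `b` -/
noncomputable def nb (q : V → V → ℝ) (a b : V) : ℝ := ∑ c, q a c * (1 - q b c)

/-- weighted sum of the edge values at `a` -/
noncomputable def YY (q z : V → V → ℝ) (a : V) : ℝ := ∑ b, nb q a b * (q a b * z a b)

/-- the mass inside the non-neighbourhood -/
noncomputable def JJ (q z : V → V → ℝ) (a : V) : ℝ :=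
  ∑ c, (1 - q a c) * ∑ b, (1 - q a b) * (q c b * z c b)

lemma nb_nonneg {q : V → V → ℝ} (hq : WG q) (a b : V) : 0 ≤ nb q a b :=
  Finset.sum_nonneg fun c _ => mul_nonneg (hq.nonneg a c) (by linarith [hq.le_one b c])

lemma nb_le {q : V → V → ℝ} (hq : WG q) (a b : V) : nb q a b ≤ uu q b := by
  unfold nb uu
  refine Finset.sum_le_sum fun c _ => ?_
  have h1 := hq.le_one a c
  have h2 := hq.le_one b c
  nlinarith

lemma uu_nonneg {q : V → V → ℝ} (hq : WG q) (a : V) : 0 ≤ uu q a :=
  Finset.sum_nonneg fun c _ => by linarith [hq.le_one a c]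

lemma dg_eq (q : V → V → ℝ) (a : V) : dg q a = nn V - uu q a := by
  unfold dg uu nn
  rw [Finset.sum_sub_distrib]
  simp

lemma tau_nb (q : V → V → ℝ) (a b : V) : tau q a b = dg q a - nb q a b := by
  unfold tau dg nb
  rw [← Finset.sum_sub_distrib]
  apply Finset.sum_congr rfl; intro c _; ring

lemma JJ_nonneg {q z : V → V → ℝ} (hq : WG q) (hz : ∀ a b, 0 ≤ z a b) (a : V) :
    0 ≤ JJ q z a :=
  Finset.sum_nonneg fun c _ => mul_nonneg (by linarith [hq.le_one a c])
    (Finset.sum_nonneg fun b _ => mul_nonneg (by linarith [hq.le_one a b])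
      (mul_nonneg (hq.nonneg c b) (hz c b)))

lemma YY_nonneg {q z : V → V → ℝ} (hq : WG q) (hz : ∀ a b, 0 ≤ z a b) (a : V) :
    0 ≤ YY q z a :=
  Finset.sum_nonneg fun b _ => mul_nonneg (nb_nonneg hq a b) (mul_nonneg (hq.nonneg a b) (hz a b))

lemma YY_le {q z : V → V → ℝ} (hq : WG q) (hz : ∀ a b, 0 ≤ z a b) (a : V) {m : ℝ}
    (hm : ∀ b, uu q b ≤ m) : YY q z a ≤ m * ZZ q z a := by
  unfold YY ZZ
  rw [Finset.mul_sum]
  refine Finset.sum_le_sum fun b _ => ?_
  exact mul_le_mul_of_nonneg_right ((nb_le hq a b).trans (hm b))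
    (mul_nonneg (hq.nonneg a b) (hz a b))

/-- first identity -/
lemma ident {q z : V → V → ℝ} (hq : WG q) (hz : ∀ a b, z a b = z b a)
    (hs : ∀ a b, q a b ≠ 0 → SS q z a b = vv q z a + vv q z b) (a : V) :
    dg q a * ZZ q z a - 2 * YY q z a = dg q a * vv q z a + ∑ b, q a b * vv q z b
      + ∑ c, (1 - q a c) * ZZ q z c - JJ q z a := by
  have e0 : ∑ b, q a b * SS q z a b = dg q a * vv q z a + ∑ b, q a b * vv q z b := by
    unfold dg
    rw [Finset.sum_mul, ← Finset.sum_add_distrib]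
    refine Finset.sum_congr rfl fun b _ => ?_
    by_cases h0 : q a b = 0
    · rw [h0]; ring
    · rw [hs a b h0]; ring
  have e1 : ∑ b, q a b * SS q z a b = (dg q a * ZZ q z a - YY q z a)
      - ∑ b, ∑ c, q a b * (q a c * (1 - q b c) * z a c)
      - ∑ b, ∑ c, q a b * (q b c * (1 - q a c) * z b c) := by
    unfold ZZ YY
    rw [Finset.mul_sum, ← Finset.sum_sub_distrib, ← Finset.sum_sub_distrib,
      ← Finset.sum_sub_distrib]
    refine Finset.sum_congr rfl fun b _ => ?_
    unfold SS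
    rw [tau_nb, Finset.sum_add_distrib, ← Finset.mul_sum, ← Finset.mul_sum]
    ring
  have e2 : ∑ b, ∑ c, q a b * (q a c * (1 - q b c) * z a c) = YY q z a := by
    rw [Finset.sum_comm]
    unfold YY nb
    refine Finset.sum_congr rfl fun c _ => ?_
    rw [Finset.sum_mul]
    refine Finset.sum_congr rfl fun b _ => ?_
    rw [hq.symm b c]; ring
  have e3 : ∑ b, ∑ c, q a b * (q b c * (1 - q a c) * z b c)
      = ∑ c, (1 - q a c) * ZZ q z c - JJ q z a := by
    rw [Finset.sum_comm]
    unfold ZZ JJ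
    rw [← Finset.sum_sub_distrib]
    refine Finset.sum_congr rfl fun c _ => ?_
    rw [← mul_sub, ← Finset.sum_sub_distrib, Finset.mul_sum]
    refine Finset.sum_congr rfl fun b _ => ?_
    rw [hq.symm b c, hz b c]; ring
  rw [e2, e3] at e1
  linarith

/-- second inequality, at a vertex with vanishing potential -/
lemma second {q z : V → V → ℝ} (hq : WG q) (hz : ∀ a b, z a b = z b a)
    (hz0 : ∀ a b, 0 ≤ z a b)
    (hs : ∀ a b, q a b ≠ 0 → SS q z a b = vv q z a + vv q z b) {m : ℝ}
    (hm : ∀ b, uu q b ≤ m) (a : V) (ha : vv q z a = 0) :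
    (dg q a - 2 * m) * YY q z a ≤ ∑ b, q a b * (uu q b * vv q z b)
      + m * ∑ c, (1 - q a c) * ZZ q z c := by
  have hnm : ∀ b, nb q a b ≤ m := fun b => (nb_le hq a b).trans (hm b)
  have hx : ∀ b, 0 ≤ q a b * z a b := fun b => mul_nonneg (hq.nonneg a b) (hz0 a b)
  have e0 : ∑ b, nb q a b * (q a b * SS q z a b) ≤ ∑ b, q a b * (uu q b * vv q z b) := by
    refine Finset.sum_le_sum fun b _ => ?_
    by_cases h0 : q a b = 0
    · rw [h0]; simp
    · rw [hs a b h0, ha, zero_add]
      have h1 := mul_le_mul_of_nonneg_right (nb_le hq a b)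
        (mul_nonneg (hq.nonneg a b) (vv_nonneg q z b))
      linarith
  have e1 : ∑ b, nb q a b * (q a b * SS q z a b)
      = ∑ b, (dg q a - nb q a b) * (nb q a b * (q a b * z a b))
      - ∑ b, ∑ c, nb q a b * (q a b * (q a c * (1 - q b c) * z a c))
      - ∑ b, ∑ c, nb q a b * (q a b * (q b c * (1 - q a c) * z b c)) := by
    rw [← Finset.sum_sub_distrib, ← Finset.sum_sub_distrib]
    refine Finset.sum_congr rfl fun b _ => ?_
    unfold SS
    rw [tau_nb, Finset.sum_add_distrib, ← Finset.mul_sum, ← Finset.mul_sum, ← Finset.mul_sum,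
      ← Finset.mul_sum]
    ring
  have e2 : (dg q a - m) * YY q z a
      ≤ ∑ b, (dg q a - nb q a b) * (nb q a b * (q a b * z a b)) := by
    unfold YY
    rw [Finset.mul_sum]
    refine Finset.sum_le_sum fun b _ => ?_
    exact mul_le_mul_of_nonneg_right (by linarith [hnm b]) (mul_nonneg (nb_nonneg hq a b) (hx b))
  have e3 : ∑ b, ∑ c, nb q a b * (q a b * (q a c * (1 - q b c) * z a c)) ≤ m * YY q z a := by
    rw [Finset.sum_comm]
    unfold YY
    rw [Finset.mul_sum]
    refine Finset.sum_le_sum fun c _ => ?_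
    have h1 : ∑ b, nb q a b * (q a b * (q a c * (1 - q b c) * z a c))
        = (∑ b, nb q a b * (q a b * (1 - q c b))) * (q a c * z a c) := by
      rw [Finset.sum_mul]
      refine Finset.sum_congr rfl fun b _ => ?_
      rw [hq.symm b c]; ring
    have h2 : ∑ b, nb q a b * (q a b * (1 - q c b)) ≤ m * nb q a c := by
      rw [nb, Finset.mul_sum]
      refine Finset.sum_le_sum fun b _ => ?_
      exact mul_le_mul_of_nonneg_right (hnm b)
        (mul_nonneg (hq.nonneg a b) (by linarith [hq.le_one c b]))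
    rw [h1]
    have h3 := mul_le_mul_of_nonneg_right h2 (hx c)
    linarith
  have e4 : ∑ b, ∑ c, nb q a b * (q a b * (q b c * (1 - q a c) * z b c))
      ≤ m * ∑ c, (1 - q a c) * ZZ q z c := by
    rw [Finset.sum_comm, Finset.mul_sum]
    refine Finset.sum_le_sum fun c _ => ?_
    unfold ZZ
    rw [Finset.mul_sum, Finset.mul_sum]
    refine Finset.sum_le_sum fun b _ => ?_
    have hn0 := nb_nonneg hq a b
    have hm0 : 0 ≤ m := hn0.trans (hnm b)
    have h1 : nb q a b * q a b ≤ m * 1 :=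
      mul_le_mul (hnm b) (hq.le_one a b) (hq.nonneg a b) hm0
    have h2 : 0 ≤ (1 - q a c) * (q c b * z c b) :=
      mul_nonneg (by linarith [hq.le_one a c]) (mul_nonneg (hq.nonneg c b) (hz0 c b))
    have h3 := mul_le_mul_of_nonneg_right h1 h2
    rw [hq.symm b c, hz b c]
    nlinarith [h3]
  rw [e1] at e0
  nlinarith [e0, e2, e3, e4]

end Pool.NWT
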