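import Pool.Agent.NWT.Defs

/-!
The minimiser of the energy solves the linear system.
-/

open Finset Filter Topology

namespace Pool.NWT

variable {V : Type*} [Fintype V]

lemma SS_comm {q z : V → V → ℝ} (a b : V) (hz : ∀ a b, z a b = z b a) :
    SS q z a b = SS q z b a := by
  unfold SS tau
  rw [hz a b]
  congr 1
  · congr 1
    apply Finset.sum_congr rfl; intro c _; ring
  · apply Finset.sum_congr rfl; intro c _; ring

lemma ZZ_nonneg {q z : V → V → ℝ} (hq : WG q) (hz : ∀ a b, 0 ≤ z a b) (a : V) :
    0 ≤ ZZ q z a :=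
  Finset.sum_nonneg fun b _ => mul_nonneg (hq.nonneg a b) (hz a b)

lemma vv_le {q z : V → V → ℝ} (hq : WG q) (hz : ∀ a b, 0 ≤ z a b) (a : V) :
    vv q z a ≤ 1 / 2 := by
  unfold vv
  have := ZZ_nonneg hq hz a
  exact max_le (by linarith) (by norm_num)

/-- the feasible set -/
def Feas (q : V → V → ℝ) (R : ℝ) : Set (V → V → ℝ) :=
  {z | (∀ a b, z a b = z b a) ∧ (∀ a b, 0 ≤ z a b) ∧ (∀ a b, z a b ≤ R) ∧
    ∀ a b, q a b = 0 → z a b = 0}

omit [Fintype V] in
lemma feas_compact (q : V → V → ℝ) (R : ℝ) : IsCompact (Feas q R) := by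
  have hK : IsCompact (Set.pi Set.univ fun _ : V => Set.pi Set.univ fun _ : V => Set.Icc (0 : ℝ) R) :=
    isCompact_univ_pi fun _ => isCompact_univ_pi fun _ => isCompact_Icc
  refine hK.of_isClosed_subset ?_ ?_
  · have hc : ∀ a b : V, Continuous fun z : V → V → ℝ => z a b := fun a b =>
      (continuous_apply b).comp (continuous_apply a)
    have : Feas q R = (⋂ a : V, ⋂ b : V, {z : V → V → ℝ | z a b = z b a}) ∩
        ((⋂ a : V, ⋂ b : V, {z : V → V → ℝ | 0 ≤ z a b}) ∩
        ((⋂ a : V, ⋂ b : V, {z : V → V → ℝ | z a b ≤ R}) ∩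
        (⋂ a : V, ⋂ b : V, ⋂ _ : q a b = 0, {z : V → V → ℝ | z a b = 0}))) := by
      ext z
      simp only [Feas, Set.mem_ofPred_eq, Set.mem_inter_iff, Set.mem_iInter]
    rw [this]
    refine IsClosed.inter ?_ (IsClosed.inter ?_ (IsClosed.inter ?_ ?_))
    · exact isClosed_iInter fun a => isClosed_iInter fun b => isClosed_eq (hc a b) (hc b a)
    · exact isClosed_iInter fun a => isClosed_iInter fun b =>
        isClosed_le continuous_const (hc a b)
    · exact isClosed_iInter fun a => isClosed_iInter fun b =>
        isClosed_le (hc a b) continuous_const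
    · exact isClosed_iInter fun a => isClosed_iInter fun b => isClosed_iInter fun _ =>
        isClosed_eq (hc a b) continuous_const
  · intro z hz
    simp only [Set.mem_pi, Set.mem_univ, true_implies, Set.mem_Icc]
    exact fun a b => ⟨hz.2.1 a b, hz.2.2.1 a b⟩

lemma Psi_continuous (q : V → V → ℝ) : Continuous (Psi q) := by
  have hc : ∀ a b : V, Continuous fun z : V → V → ℝ => z a b := fun a b =>
      (continuous_apply b).comp (continuous_apply a)
  unfold Psi QF SS vv ZZ
  refine Continuous.add ?_ ?_
  · refine continuous_const.mul ?_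
    refine continuous_finsetSum _ fun a _ => continuous_finsetSum _ fun b _ => ?_
    refine (continuous_const.mul (hc a b)).mul ?_
    refine (continuous_const.mul (hc a b)).sub ?_
    refine continuous_finsetSum _ fun c _ => ?_
    exact (continuous_const.mul (hc a c)).add (continuous_const.mul (hc b c))
  · refine continuous_const.mul ?_
    refine continuous_finsetSum _ fun a _ => ?_
    refine Continuous.pow ?_ 2
    refine Continuous.max ?_ continuous_const
    refine continuous_const.sub ?_
    exact continuous_finsetSum _ fun b _ => continuous_const.mul (hc a b)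

/-- the minimiser solves the linear system -/
theorem obstacle {q : V → V → ℝ} (hq : WG q) {η : ℝ} (hη : 0 < η)
    (hd : ∀ a b, q a b ≠ 0 →
      η ≤ tau q a b - ∑ c, (q a c * (1 - q b c) + q b c * (1 - q a c))) :
    ∃ z : V → V → ℝ, (∀ a b, z a b = z b a) ∧ (∀ a b, 0 ≤ z a b) ∧
      (∀ a b, q a b = 0 → z a b = 0) ∧
      (∀ a b, q a b ≠ 0 → SS q z a b = vv q z a + vv q z b) ∧
      ∀ y ∈ Feas q (2 / η), Psi q z ≤ Psi q y := by
  set R : ℝ := 2 / η with hR
  have hR0 : 0 < R := by positivity
  have hne : (Feas q R).Nonempty :=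
    ⟨fun _ _ => 0, fun _ _ => rfl, fun _ _ => le_rfl, fun _ _ => hR0.le, fun _ _ _ => rfl⟩
  obtain ⟨z, hz, hmin⟩ := (feas_compact q R).exists_isMinOn hne (Psi_continuous q).continuousOn
  obtain ⟨z1, z2, z3, z4⟩ := id hz
  refine ⟨z, z1, z2, z4, ?_, fun y hy => hmin hy⟩
  set D : V → V → ℝ := fun a b => SS q z a b - vv q z a - vv q z b with hD
  set w : V → V → ℝ := fun a b => if q a b = 0 then 0 else - D a b with hw
  have hwsymm : ∀ a b, w a b = w b a := by
    intro a b
    simp only [hw, hD, hq.symm a b, SS_comm (q := q) a b z1]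
    split_ifs
    · rfl
    · ring
  have hw0 : ∀ a b, q a b = 0 → w a b = 0 := fun a b h => by simp [hw, h]
  -- feasibility for small `t`
  have hev : ∀ a b : V, ∀ᶠ t in 𝓝[>] (0 : ℝ), 0 ≤ z a b + t * w a b ∧ z a b + t * w a b ≤ R := by
    intro a b
    have hcont : Tendsto (fun t : ℝ => z a b + t * w a b) (𝓝[>] 0) (𝓝 (z a b)) := by
      have : Continuous fun t : ℝ => z a b + t * w a b := by fun_prop
      have h := (this.tendsto 0).mono_left (nhdsWithin_le_nhds (s := Set.Ioi 0))
      simpa using h
    have hpos : ∀ᶠ t in 𝓝[>] (0 : ℝ), 0 < t := self_mem_nhdsWithin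
    by_cases h0 : q a b = 0
    · rw [z4 a b h0, hw0 a b h0]
      exact Eventually.of_forall fun t => ⟨by simp, by simpa using hR0.le⟩
    · have hwv : w a b = - D a b := by simp [hw, h0]
      have hva := vv_nonneg q z a
      have hvb := vv_nonneg q z b
      rcases eq_or_lt_of_le (z2 a b) with hz0 | hz0
      · -- `z a b = 0`
        have hSS : SS q z a b ≤ 0 := by
          unfold SS
          rw [← hz0, mul_zero, zero_sub, neg_nonpos]
          refine Finset.sum_nonneg fun c _ => ?_
          have := hq.nonneg a c; have := hq.nonneg b c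
          have := hq.le_one a c; have := hq.le_one b c
          have := z2 a c; have := z2 b c
          have : 0 ≤ 1 - q b c := by linarith
          have : 0 ≤ 1 - q a c := by linarith
          positivity
        have hw1 : 0 ≤ w a b := by
          rw [hwv, hD]; simp only; linarith
        have hlt : ∀ᶠ t in 𝓝[>] (0 : ℝ), z a b + t * w a b < R :=
          hcont.eventually (gt_mem_nhds (by rw [← hz0]; exact hR0))
        filter_upwards [hpos, hlt] with t ht h
        refine ⟨?_, h.le⟩
        have := z2 a b
        positivity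
      · rcases eq_or_lt_of_le (z3 a b) with hzR | hzR
        · -- `z a b = R`
          have hSS : 2 ≤ SS q z a b := by
            unfold SS
            have h1 : ∑ c, (q a c * (1 - q b c) * z a c + q b c * (1 - q a c) * z b c)
                ≤ R * ∑ c, (q a c * (1 - q b c) + q b c * (1 - q a c)) := by
              rw [Finset.mul_sum]
              refine Finset.sum_le_sum fun c _ => ?_
              have g1 : q a c * (1 - q b c) * z a c ≤ q a c * (1 - q b c) * R :=
                mul_le_mul_of_nonneg_left (z3 a c)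
                  (mul_nonneg (hq.nonneg a c) (by linarith [hq.le_one b c]))
              have g2 : q b c * (1 - q a c) * z b c ≤ q b c * (1 - q a c) * R :=
                mul_le_mul_of_nonneg_left (z3 b c)
                  (mul_nonneg (hq.nonneg b c) (by linarith [hq.le_one a c]))
              linarith
            have h2 := mul_le_mul_of_nonneg_left (hd a b h0) hR0.le
            have h3 : R * η = 2 := by rw [hR]; field_simp
            rw [hzR]
            linarith
          have hw1 : w a b < 0 := by
            rw [hwv, hD]; simp only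
            have := vv_le hq z2 a; have := vv_le hq z2 b
            linarith
          have hlt : ∀ᶠ t in 𝓝[>] (0 : ℝ), 0 < z a b + t * w a b :=
            hcont.eventually (lt_mem_nhds hz0)
          filter_upwards [hpos, hlt] with t ht h
          refine ⟨h.le, ?_⟩
          have : t * w a b ≤ 0 := mul_nonpos_of_nonneg_of_nonpos ht.le hw1.le
          linarith [z3 a b]
        · have hl : ∀ᶠ t in 𝓝[>] (0 : ℝ), 0 < z a b + t * w a b :=
            hcont.eventually (lt_mem_nhds hz0)
          have hu : ∀ᶠ t in 𝓝[>] (0 : ℝ), z a b + t * w a b < R :=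
            hcont.eventually (gt_mem_nhds hzR)
          filter_upwards [hl, hu] with t h1 h2
          exact ⟨h1.le, h2.le⟩
  have hevall : ∀ᶠ t in 𝓝[>] (0 : ℝ), ∀ a b : V,
      0 ≤ z a b + t * w a b ∧ z a b + t * w a b ≤ R := by
    rw [eventually_all]; intro a
    rw [eventually_all]; intro b
    exact hev a b
  set A : ℝ := (1 / 2) * ∑ a, ∑ b, q a b * w a b * (SS q z a b - vv q z a - vv q z b) with hA
  set C : ℝ := (1 / 4) * QF q w w + (1 / 2) * ∑ a, (ZZ q w a) ^ 2 with hC
  have hineq : ∀ᶠ t in 𝓝[>] (0 : ℝ), 0 ≤ A + t * C := by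
    have hpos : ∀ᶠ t in 𝓝[>] (0 : ℝ), 0 < t := self_mem_nhdsWithin
    filter_upwards [hevall, hpos] with t ht hpt
    have hfe : (fun x y => z x y + t * w x y) ∈ Feas q R := by
      refine ⟨fun a b => ?_, fun a b => (ht a b).1, fun a b => (ht a b).2, fun a b h => ?_⟩
      · simp only [z1 a b, hwsymm a b]
      · simp only [z4 a b h, hw0 a b h]; ring
    have h1 : Psi q z ≤ Psi q (fun x y => z x y + t * w x y) := hmin hfe
    have h2 := Psi_add hq z1 hwsymm t
    have h3 : 0 ≤ t * A + t ^ 2 * C := by rw [hA, hC]; linarith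
    have h4 : 0 ≤ t * (A + t * C) := by nlinarith
    exact nonneg_of_mul_nonneg_right h4 hpt
  have hA0 : 0 ≤ A := by
    have hcont : Tendsto (fun t : ℝ => A + t * C) (𝓝[>] 0) (𝓝 A) := by
      have : Continuous fun t : ℝ => A + t * C := by fun_prop
      have h := (this.tendsto 0).mono_left (nhdsWithin_le_nhds (s := Set.Ioi 0))
      simpa using h
    exact ge_of_tendsto hcont hineq
  have hAeq : A = - ((1 / 2) * ∑ a, ∑ b, q a b * (w a b) ^ 2) := by
    rw [hA, ← mul_neg, ← Finset.sum_neg_distrib]
    congr 1
    refine Finset.sum_congr rfl fun a _ => ?_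
    rw [← Finset.sum_neg_distrib]
    refine Finset.sum_congr rfl fun b _ => ?_
    by_cases h0 : q a b = 0
    · rw [h0]; ring
    · have hwv : w a b = - (SS q z a b - vv q z a - vv q z b) := by simp [hw, h0, hD]
      rw [hwv]; ring
  have hnn : ∀ a b : V, 0 ≤ q a b * (w a b) ^ 2 := fun a b =>
    mul_nonneg (hq.nonneg a b) (sq_nonneg _)
  have hsum : ∑ a, ∑ b, q a b * (w a b) ^ 2 = 0 := by
    have h1 : 0 ≤ ∑ a, ∑ b, q a b * (w a b) ^ 2 :=
      Finset.sum_nonneg fun a _ => Finset.sum_nonneg fun b _ => hnn a b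
    linarith
  intro a b h0
  have h1 := (Finset.sum_eq_zero_iff_of_nonneg
    (fun a _ => Finset.sum_nonneg fun b _ => hnn a b)).1 hsum a (Finset.mem_univ a)
  have h2 := (Finset.sum_eq_zero_iff_of_nonneg (fun b _ => hnn a b)).1 h1 b (Finset.mem_univ b)
  have h3 : w a b = 0 := by
    rcases mul_eq_zero.1 h2 with h | h
    · exact absurd h h0
    · exact pow_eq_zero_iff (two_ne_zero) |>.1 h
  have hwv : w a b = - (SS q z a b - vv q z a - vv q z b) := by simp [hw, h0, hD]
  rw [hwv] at h3
  linarith

end Pool.NWT
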