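import Pool.Agent.NWT.Asm

/-!
Regularisation: removing triangles until the vertices of too large degree span no triangle.
-/

open Finset
open scoped Classical

namespace Pool.NWT

variable {V : Type*} [Fintype V]

/-- Mantel's theorem, for a relation on a finite set of vertices -/
lemma mantel (H : Finset V) (A : V → V → Prop) (hs : ∀ a b, A a b → A b a)
    (hH : ∀ a b, A a b → a ∈ H) (ht : ∀ a b c, A a b → A a c → A b c → False) :
    ∑ a ∈ H, ((univ.filter fun b => A a b).card : ℝ) ≤ (H.card : ℝ) ^ 2 / 2 := by
  set d : V → ℝ := fun a => ((univ.filter fun b => A a b).card : ℝ) with hd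
  have hd' : ∀ a, d a = ∑ b, if A a b then (1 : ℝ) else 0 := by
    intro a; simp [hd]
  have hpair : ∀ a b, A a b → d a + d b ≤ H.card := by
    intro a b hab
    have hdis : Disjoint (univ.filter fun c => A a c) (univ.filter fun c => A b c) := by
      rw [Finset.disjoint_left]
      intro c hc hc'
      simp only [Finset.mem_filter, Finset.mem_univ, true_and] at hc hc'
      exact ht a b c hab hc hc'
    have h1 : ((univ.filter fun c => A a c) ∪ (univ.filter fun c => A b c)).card ≤ H.card := by
      refine Finset.card_le_card fun c hc => ?_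
      simp only [Finset.mem_union, Finset.mem_filter, Finset.mem_univ, true_and] at hc
      rcases hc with hc | hc
      · exact hH c a (hs _ _ hc)
      · exact hH c b (hs _ _ hc)
    rw [Finset.card_union_of_disjoint hdis] at h1
    simp only [hd]
    exact_mod_cast h1
  have hout : ∀ a, a ∉ H → d a = 0 := by
    intro a ha
    rw [hd']
    refine Finset.sum_eq_zero fun b _ => ?_
    rw [if_neg]
    intro h; exact ha (hH a b h)
  have hS : ∑ a ∈ H, d a = ∑ a, d a := by
    refine Finset.sum_subset (Finset.subset_univ _) fun a _ ha => hout a ha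
  have hS2 : ∑ a ∈ H, (d a) ^ 2 = ∑ a, (d a) ^ 2 := by
    refine Finset.sum_subset (Finset.subset_univ _) fun a _ ha => by rw [hout a ha]; ring
  have h2 : 2 * ∑ a, (d a) ^ 2 = ∑ a, ∑ b, (if A a b then (1 : ℝ) else 0) * (d a + d b) := by
    have e1 : ∑ a, ∑ b, (if A a b then (1 : ℝ) else 0) * d a = ∑ a, (d a) ^ 2 := by
      refine Finset.sum_congr rfl fun a _ => ?_
      rw [← Finset.sum_mul, ← hd']; ring
    have e2 : ∑ a, ∑ b, (if A a b then (1 : ℝ) else 0) * d b = ∑ a, (d a) ^ 2 := by
      rw [Finset.sum_comm, ← e1]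
      refine Finset.sum_congr rfl fun a _ => Finset.sum_congr rfl fun b _ => ?_
      have : A b a ↔ A a b := ⟨hs _ _, hs _ _⟩
      simp only [this]
    simp only [mul_add, Finset.sum_add_distrib]
    rw [e1, e2]; ring
  have h3 : ∑ a, ∑ b, (if A a b then (1 : ℝ) else 0) * (d a + d b)
      ≤ (H.card : ℝ) * ∑ a, d a := by
    rw [Finset.mul_sum]
    refine Finset.sum_le_sum fun a _ => ?_
    have e3 : (H.card : ℝ) * d a = ∑ b, (H.card : ℝ) * (if A a b then (1 : ℝ) else 0) := by
      rw [← Finset.mul_sum, ← hd']
    rw [e3]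
    refine Finset.sum_le_sum fun b _ => ?_
    by_cases h : A a b
    · rw [if_pos h]; have := hpair a b h; linarith
    · rw [if_neg h, zero_mul, mul_zero]
  have h4 : (∑ a ∈ H, d a) ^ 2 ≤ H.card * ∑ a ∈ H, (d a) ^ 2 := sq_sum_le_card_mul_sum_sq
  rw [hS2, hS] at h4
  rw [hS]
  have hd0 : 0 ≤ ∑ a, d a := Finset.sum_nonneg fun a _ => by simp [hd]
  have hc0 : (0 : ℝ) ≤ H.card := Nat.cast_nonneg _
  rcases eq_or_lt_of_le hd0 with h0 | h0
  · exact h0.symm.le.trans (div_nonneg (sq_nonneg _) (by norm_num))
  · have h5 : (∑ a, d a) * (∑ a, d a) ≤ (∑ a, d a) * ((H.card : ℝ) ^ 2 / 2) := by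
      have := mul_le_mul_of_nonneg_left (h2 ▸ h3) hc0
      nlinarith
    exact le_of_mul_le_mul_left h5 h0

/-- admissible weightings -/
def Adm (G : SimpleGraph V) : Set (Finset V → ℝ) :=
  {w | (∀ K, 0 ≤ w K) ∧ (∀ K : Finset V, ¬ (G.IsClique (K : Set V) ∧ K.card = 3) → w K = 0) ∧
    (∀ a b, G.Adj a b → Pool.H34.Dec.cov w a b ≤ 1) ∧
    ∀ a, ∑ b, (if G.Adj a b then Pool.H34.Dec.cov w a b else 0) ≤ G.degree a - 4 * nn V / 5}

lemma cov_continuous (a b : V) : Continuous fun w : Finset V → ℝ => Pool.H34.Dec.cov w a b := by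
  unfold Pool.H34.Dec.cov
  refine continuous_finsetSum _ fun K _ => ?_
  by_cases h : a ∈ K ∧ b ∈ K
  · simp only [if_pos h]; exact continuous_apply K
  · simp only [if_neg h]; exact continuous_const

lemma adm_compact (G : SimpleGraph V) : IsCompact (Adm G) := by
  have hK : IsCompact (Set.pi Set.univ fun _ : Finset V => Set.Icc (0 : ℝ) 1) :=
    isCompact_univ_pi fun _ => isCompact_Icc
  refine hK.of_isClosed_subset ?_ ?_
  · have : Adm G = (⋂ K : Finset V, {w : Finset V → ℝ | 0 ≤ w K}) ∩
        ((⋂ K : Finset V, ⋂ _ : ¬ (G.IsClique (K : Set V) ∧ K.card = 3),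
          {w : Finset V → ℝ | w K = 0}) ∩
        ((⋂ a : V, ⋂ b : V, ⋂ _ : G.Adj a b, {w : Finset V → ℝ | Pool.H34.Dec.cov w a b ≤ 1}) ∩
        (⋂ a : V, {w : Finset V → ℝ |
          ∑ b, (if G.Adj a b then Pool.H34.Dec.cov w a b else 0)
            ≤ G.degree a - 4 * nn V / 5}))) := by
      ext w
      simp only [Adm, Set.mem_ofPred_eq, Set.mem_inter_iff, Set.mem_iInter]
    rw [this]
    refine IsClosed.inter ?_ (IsClosed.inter ?_ (IsClosed.inter ?_ ?_))
    · exact isClosed_iInter fun K => isClosed_le continuous_const (continuous_apply K)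
    · exact isClosed_iInter fun K => isClosed_iInter fun _ =>
        isClosed_eq (continuous_apply K) continuous_const
    · exact isClosed_iInter fun a => isClosed_iInter fun b => isClosed_iInter fun _ =>
        isClosed_le (cov_continuous a b) continuous_const
    · refine isClosed_iInter fun a => isClosed_le ?_ continuous_const
      refine continuous_finsetSum _ fun b _ => ?_
      by_cases h : G.Adj a b
      · simp only [if_pos h]; exact cov_continuous a b
      · simp only [if_neg h]; exact continuous_const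
  · rintro w ⟨w1, w2, w3, _⟩
    simp only [Set.mem_pi, Set.mem_univ, true_implies, Set.mem_Icc]
    intro K
    refine ⟨w1 K, ?_⟩
    by_cases hK : G.IsClique (K : Set V) ∧ K.card = 3
    · obtain ⟨hcl, hcard⟩ := hK
      have h2 : 1 < K.card := by omega
      obtain ⟨a, ha, b, hb, hab⟩ := Finset.one_lt_card.1 h2
      have hadj : G.Adj a b := hcl ha hb hab
      have h3 : w K ≤ Pool.H34.Dec.cov w a b := by
        unfold Pool.H34.Dec.cov
        have h4 := Finset.single_le_sum (s := (univ : Finset (Finset V)))
          (f := fun K => if a ∈ K ∧ b ∈ K then w K else 0)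
          (fun K _ => by
            show (0 : ℝ) ≤ if a ∈ K ∧ b ∈ K then w K else 0
            split_ifs
            · exact w1 K
            · exact le_rfl) (Finset.mem_univ K)
        simp only [ha, hb, and_self, if_true] at h4
        exact h4
      exact h3.trans (w3 a b hadj)
    · rw [w2 K hK]; exact zero_le_one

lemma cov_add (w : Finset V → ℝ) (K : Finset V) (t : ℝ) (a b : V) :
    Pool.H34.Dec.cov (fun L => w L + if L = K then t else 0) a b
      = Pool.H34.Dec.cov w a b + if a ∈ K ∧ b ∈ K then t else 0 := by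
  unfold Pool.H34.Dec.cov
  have : ∀ L : Finset V, (if a ∈ L ∧ b ∈ L then (w L + if L = K then t else 0) else 0)
      = (if a ∈ L ∧ b ∈ L then w L else 0) + (if L = K then (if a ∈ K ∧ b ∈ K then t else 0) else 0) := by
    intro L
    by_cases h : L = K
    · subst h; split_ifs <;> simp
    · simp [h]
  rw [Finset.sum_congr rfl fun L _ => this L, Finset.sum_add_distrib, Finset.sum_ite_eq']
  simp

/-- the regularisation -/
theorem regularise (G : SimpleGraph V) (hG : ∀ v, 4 * nn V / 5 ≤ G.degree v) :
    ∃ w ∈ Adm G, ∃ q : V → V → ℝ, WG q ∧ (∀ a b, ¬ G.Adj a b → q a b = 0) ∧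
      (∀ a b, G.Adj a b → q a b = 1 - Pool.H34.Dec.cov w a b) ∧
      (∀ a, uu q a ≤ nn V / 5) ∧ ∑ a, (nn V / 5 - uu q a) ≤ nn V ^ 2 / 50 := by
  have hne : (Adm G).Nonempty := by
    refine ⟨fun _ => 0, fun _ => le_rfl, fun _ _ => rfl, fun a b _ => ?_, fun a => ?_⟩
    · unfold Pool.H34.Dec.cov; simp
    · unfold Pool.H34.Dec.cov; simp; linarith [hG a]
  have hcont : Continuous fun w : Finset V → ℝ => ∑ K, w K :=
    continuous_finsetSum _ fun K _ => continuous_apply K
  obtain ⟨w, hw, hmax⟩ := (adm_compact G).exists_isMaxOn hne hcont.continuousOn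
  obtain ⟨w1, w2, w3, w4⟩ := id hw
  have hcov0 : ∀ a b, 0 ≤ Pool.H34.Dec.cov w a b := by
    intro a b
    unfold Pool.H34.Dec.cov
    refine Finset.sum_nonneg fun K _ => ?_
    split_ifs
    · exact w1 K
    · exact le_rfl
  have hcovs : ∀ a b, Pool.H34.Dec.cov w a b = Pool.H34.Dec.cov w b a := by
    intro a b
    unfold Pool.H34.Dec.cov
    refine Finset.sum_congr rfl fun K _ => ?_
    simp only [and_comm]
  set q : V → V → ℝ := fun a b => if G.Adj a b then 1 - Pool.H34.Dec.cov w a b else 0 with hqd
  have hq : WG q := by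
    refine ⟨fun a b => ?_, fun a b => ?_, fun a b => ?_, fun a => ?_⟩
    · simp only [hqd, G.adj_comm a b, hcovs a b]
    · simp only [hqd]
      split_ifs with h
      · linarith [w3 a b h]
      · exact le_rfl
    · simp only [hqd]
      split_ifs with h
      · linarith [hcov0 a b]
      · exact zero_le_one
    · simp [hqd]
  have hdg : ∀ a, dg q a = G.degree a - ∑ b, (if G.Adj a b then Pool.H34.Dec.cov w a b else 0) := by
    intro a
    unfold dg
    have h1 : (G.degree a : ℝ) = ∑ b, if G.Adj a b then (1 : ℝ) else 0 := by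
      rw [Finset.sum_boole, SimpleGraph.degree, SimpleGraph.neighborFinset_eq_filter]
    rw [h1, ← Finset.sum_sub_distrib]
    refine Finset.sum_congr rfl fun b _ => ?_
    simp only [hqd]
    split_ifs <;> ring
  have hu : ∀ a, uu q a = nn V - dg q a := fun a => by rw [dg_eq]; ring
  refine ⟨w, hw, q, hq, fun a b h => by simp [hqd, h], fun a b h => by simp [hqd, h], ?_, ?_⟩
  · intro a
    rw [hu, hdg]
    linarith [w4 a]
  -- the set of vertices with too large degree
  set H : Finset V := univ.filter fun a => 4 * nn V / 5 < dg q a with hH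
  obtain ⟨A, hA⟩ : ∃ A : V → V → Prop, ∀ a b, A a b ↔ (a ∈ H ∧ b ∈ H ∧ 0 < q a b) :=
    ⟨_, fun _ _ => Iff.rfl⟩
  have hAs : ∀ a b, A a b → A b a := fun a b h => by
    rw [hA] at h ⊢
    exact ⟨h.2.1, h.1, by rw [hq.symm b a]; exact h.2.2⟩
  have htri : ∀ a b c, A a b → A a c → A b c → False := by
    intro a b c h1 h2 h3
    rw [hA] at h1 h2 h3
    obtain ⟨ha, hb, hab⟩ := h1
    obtain ⟨_, hc, hac⟩ := h2
    obtain ⟨_, _, hbc⟩ := h3
    simp only [hH, Finset.mem_filter, Finset.mem_univ, true_and] at ha hb hc
    have adj : ∀ x y, 0 < q x y → G.Adj x y := by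
      intro x y hxy
      by_contra hcon
      simp only [hqd, if_neg hcon] at hxy
      exact lt_irrefl _ hxy
    have gab := adj a b hab
    have gac := adj a c hac
    have gbc := adj b c hbc
    set K : Finset V := {a, b, c} with hK
    have hKc : K.card = 3 := by
      rw [hK, Finset.card_eq_three]
      exact ⟨a, b, c, gab.ne, gac.ne, gbc.ne, rfl⟩
    have hKcl : G.IsClique (K : Set V) := by
      intro x hx y hy hxy
      simp only [hK, Finset.coe_insert, Finset.coe_singleton, Set.mem_insert_iff,
        Set.mem_singleton_iff] at hx hy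
      rcases hx with rfl | rfl | rfl <;> rcases hy with rfl | rfl | rfl
      · exact absurd rfl hxy
      · exact gab
      · exact gac
      · exact gab.symm
      · exact absurd rfl hxy
      · exact gbc
      · exact gac.symm
      · exact gbc.symm
      · exact absurd rfl hxy
    obtain ⟨t, ht0, hte, htv⟩ : ∃ t : ℝ, 0 < t ∧ (∀ x ∈ K, ∀ y ∈ K, x ≠ y → t ≤ q x y) ∧
        ∀ x ∈ K, 2 * t ≤ dg q x - 4 * nn V / 5 := by
      refine ⟨min (min (q a b) (min (q a c) (q b c))) (min ((dg q a - 4 * nn V / 5) / 2)
        (min ((dg q b - 4 * nn V / 5) / 2) ((dg q c - 4 * nn V / 5) / 2))), ?_, ?_, ?_⟩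
      · refine lt_min (lt_min hab (lt_min hac hbc)) (lt_min ?_ (lt_min ?_ ?_)) <;> linarith
      · have k1 : min (min (q a b) (min (q a c) (q b c))) (min ((dg q a - 4 * nn V / 5) / 2)
          (min ((dg q b - 4 * nn V / 5) / 2) ((dg q c - 4 * nn V / 5) / 2))) ≤ q a b :=
            (min_le_left _ _).trans (min_le_left _ _)
        have k2 : min (min (q a b) (min (q a c) (q b c))) (min ((dg q a - 4 * nn V / 5) / 2)
          (min ((dg q b - 4 * nn V / 5) / 2) ((dg q c - 4 * nn V / 5) / 2))) ≤ q a c :=
            (min_le_left _ _).trans ((min_le_right _ _).trans (min_le_left _ _))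
        have k3 : min (min (q a b) (min (q a c) (q b c))) (min ((dg q a - 4 * nn V / 5) / 2)
          (min ((dg q b - 4 * nn V / 5) / 2) ((dg q c - 4 * nn V / 5) / 2))) ≤ q b c :=
            (min_le_left _ _).trans ((min_le_right _ _).trans (min_le_right _ _))
        intro x hx y hy hxy
        simp only [hK, Finset.mem_insert, Finset.mem_singleton] at hx hy
        rcases hx with rfl | rfl | rfl <;> rcases hy with rfl | rfl | rfl
        · exact absurd rfl hxy
        · exact k1
        · exact k2
        · exact k1.trans (le_of_eq (hq.symm _ _))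
        · exact absurd rfl hxy
        · exact k3
        · exact k2.trans (le_of_eq (hq.symm _ _))
        · exact k3.trans (le_of_eq (hq.symm _ _))
        · exact absurd rfl hxy
      · have k1 : min (min (q a b) (min (q a c) (q b c))) (min ((dg q a - 4 * nn V / 5) / 2)
          (min ((dg q b - 4 * nn V / 5) / 2) ((dg q c - 4 * nn V / 5) / 2)))
            ≤ (dg q a - 4 * nn V / 5) / 2 := (min_le_right _ _).trans (min_le_left _ _)
        have k2 : min (min (q a b) (min (q a c) (q b c))) (min ((dg q a - 4 * nn V / 5) / 2)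
          (min ((dg q b - 4 * nn V / 5) / 2) ((dg q c - 4 * nn V / 5) / 2)))
            ≤ (dg q b - 4 * nn V / 5) / 2 :=
          (min_le_right _ _).trans ((min_le_right _ _).trans (min_le_left _ _))
        have k3 : min (min (q a b) (min (q a c) (q b c))) (min ((dg q a - 4 * nn V / 5) / 2)
          (min ((dg q b - 4 * nn V / 5) / 2) ((dg q c - 4 * nn V / 5) / 2)))
            ≤ (dg q c - 4 * nn V / 5) / 2 :=
          (min_le_right _ _).trans ((min_le_right _ _).trans (min_le_right _ _))
        intro x hx
        simp only [hK, Finset.mem_insert, Finset.mem_singleton] at hx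
        rcases hx with rfl | rfl | rfl <;> linarith
    -- the enlarged weighting
    set w' : Finset V → ℝ := fun L => w L + if L = K then t else 0 with hw'
    have hw'A : w' ∈ Adm G := by
      refine ⟨fun L => ?_, fun L hL => ?_, fun x y hxy => ?_, fun x => ?_⟩
      · simp only [hw']
        split_ifs
        · linarith [w1 L]
        · linarith [w1 L]
      · simp only [hw']
        rw [if_neg, w2 L hL, add_zero]
        rintro rfl; exact hL ⟨hKcl, hKc⟩
      · rw [hw', cov_add]
        split_ifs with h
        · have h1 := hte x h.1 y h.2 hxy.ne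
          simp only [hqd, if_pos hxy] at h1
          linarith
        · linarith [w3 x y hxy]
      · have e1 : ∑ y, (if G.Adj x y then Pool.H34.Dec.cov w' x y else 0)
            = ∑ y, (if G.Adj x y then Pool.H34.Dec.cov w x y else 0)
              + ∑ y, (if G.Adj x y ∧ (x ∈ K ∧ y ∈ K) then t else 0) := by
          rw [← Finset.sum_add_distrib]
          refine Finset.sum_congr rfl fun y _ => ?_
          rw [hw', cov_add]
          by_cases h : G.Adj x y
          · simp [h]
          · simp [h]
        rw [e1]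
        by_cases hx : x ∈ K
        · have e2 : ∑ y, (if G.Adj x y ∧ (x ∈ K ∧ y ∈ K) then t else 0) ≤ 2 * t := by
            rw [← Finset.sum_filter, Finset.sum_const, nsmul_eq_mul]
            refine mul_le_mul_of_nonneg_right ?_ ht0.le
            have : (univ.filter fun y => G.Adj x y ∧ (x ∈ K ∧ y ∈ K)).card ≤ (K.erase x).card := by
              refine Finset.card_le_card fun y hy => ?_
              simp only [Finset.mem_filter, Finset.mem_univ, true_and] at hy
              exact Finset.mem_erase.2 ⟨hy.1.ne.symm, hy.2.2⟩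
            rw [Finset.card_erase_of_mem hx, hKc] at this
            exact_mod_cast this
          have h1 := htv x hx
          rw [hdg] at h1
          linarith
        · have e2 : ∑ y, (if G.Adj x y ∧ (x ∈ K ∧ y ∈ K) then t else 0) = 0 :=
            Finset.sum_eq_zero fun y _ => by simp [hx]
          rw [e2, add_zero]
          exact w4 x
    have h1 : ∑ L, w' L ≤ ∑ L, w L := hmax hw'A
    have h2 : ∑ L, w' L = ∑ L, w L + t := by
      simp only [hw']
      rw [Finset.sum_add_distrib, Finset.sum_ite_eq']
      simp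
    linarith
  have hM := mantel H A hAs (fun a b h => ((hA a b).1 h).1) htri
  have hlow : ∑ a, (nn V / 5 - uu q a) ≤ ∑ a ∈ H, (dg q a - 4 * nn V / 5) := by
    rw [hH, Finset.sum_filter]
    refine Finset.sum_le_sum fun a _ => ?_
    rw [hu]
    split_ifs with h
    · apply le_of_eq; ring
    · push Not at h; linarith
  have hdH : ∀ a ∈ H, dg q a - 4 * nn V / 5 ≤ nn V / 5 - H.card
      + ((univ.filter fun b => A a b).card : ℝ) := by
    intro a ha
    have h1 : dg q a ≤ ∑ b, ((if b ∈ H then (0 : ℝ) else 1) + if A a b then (1 : ℝ) else 0) := by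
      unfold dg
      refine Finset.sum_le_sum fun b _ => ?_
      by_cases hb : b ∈ H
      · rcases eq_or_lt_of_le (hq.nonneg a b) with h | h
        · refine h.ge.trans ?_
          positivity
        · have : A a b := (hA a b).2 ⟨ha, hb, h⟩
          simp [hb, this, hq.le_one a b]
      · have : ¬ A a b := fun h => hb ((hA a b).1 h).2.1
        simp [hb, this, hq.le_one a b]
    have h2 : ∑ b, ((if b ∈ H then (0 : ℝ) else 1) + if A a b then (1 : ℝ) else 0)
        = nn V - H.card + ((univ.filter fun b => A a b).card : ℝ) := by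
      rw [Finset.sum_add_distrib, Finset.sum_boole]
      congr 1
      have : ∑ b, (if b ∈ H then (0 : ℝ) else 1) = ∑ b : V, ((1 : ℝ) - if b ∈ H then (1 : ℝ) else 0) := by
        refine Finset.sum_congr rfl fun b _ => ?_
        split_ifs <;> ring
      rw [this, Finset.sum_sub_distrib, Finset.sum_boole]
      simp [nn]
    linarith
  have hfin := Finset.sum_le_sum hdH
  rw [Finset.sum_add_distrib, Finset.sum_const, nsmul_eq_mul] at hfin
  nlinarith [sq_nonneg ((H.card : ℝ) - nn V / 5)]

end Pool.NWT
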